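import Pool.Agent.V1185.Jos.Four

open Set Real Filter Topology MeasureTheory

namespace Pool.Agent.V1185.Jos

/-- The integral `∫₀^{2π} cos (r t + a sin t) dt`. -/
noncomputable def CC (r : ℤ) (a : ℝ) : ℝ := ∫ t in (0:ℝ)..(2 * π), cos (r * t + a * sin t)

/-- The second order quantity. -/
noncomputable def SS (r : ℤ) (a t : ℝ) : ℝ := ∫ s in (0:ℝ)..t, sin (r * s + a * sin s)

noncomputable def DD (r : ℤ) (a : ℝ) : ℝ :=
  ∫ t in (0:ℝ)..(2 * π), cos (r * t + a * sin t) * SS r a t

lemma CC_cont (r : ℤ) : Continuous (CC r) := by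
  unfold CC
  apply intervalIntegral.continuous_parametric_intervalIntegral_of_continuous' (f := fun a t =>
    cos (r * t + a * sin t))
  unfold Function.uncurry
  fun_prop

lemma SS_cont (r : ℤ) : Continuous (fun p : ℝ × ℝ => SS r p.1 p.2) := by
  unfold SS
  apply intervalIntegral.continuous_parametric_intervalIntegral_of_continuous
    (f := fun (p : ℝ × ℝ) s => sin (r * s + p.1 * sin s))
  · unfold Function.uncurry
    fun_prop
  · fun_prop

lemma SS_cont' (r : ℤ) (a : ℝ) : Continuous (SS r a) := by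
  unfold SS
  exact intervalIntegral.continuous_primitive
    (fun _ _ => Continuous.intervalIntegrable (by fun_prop) _ _) 0

lemma DD_cont (r : ℤ) : Continuous (DD r) := by
  unfold DD
  apply intervalIntegral.continuous_parametric_intervalIntegral_of_continuous' (f := fun a t =>
    cos (r * t + a * sin t) * SS r a t)
  have h := SS_cont r
  have h2 : Continuous (fun p : ℝ × ℝ => cos (r * p.2 + p.1 * sin p.2)) := by fun_prop
  exact h2.mul h

lemma DD_zero {r : ℤ} (hr : r ≠ 0) : DD r 0 = -(π / r) := by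
  have hr' : (r : ℝ) ≠ 0 := by exact_mod_cast hr
  have hS : ∀ t, SS r 0 t = (1 - cos (r * t)) / r := by
    intro t
    unfold SS
    have h1 : ∀ s ∈ uIcc 0 t, HasDerivAt (fun s : ℝ => -(cos (r * s)) / r)
        (sin (r * s + 0 * sin s)) s := by
      intro s _
      have h2 : HasDerivAt (fun s : ℝ => (r:ℝ) * s) ((r:ℝ) * 1) s :=
        (hasDerivAt_id s).const_mul (r:ℝ)
      have h3 := (h2.cos.neg).div_const (r:ℝ)
      refine h3.congr_deriv ?_
      field_simp
      simp
    rw [intervalIntegral.integral_eq_sub_of_hasDerivAt h1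
      (Continuous.intervalIntegrable (by fun_prop) _ _)]
    simp
    ring
  unfold DD
  have h1 : ∀ t ∈ uIcc (0:ℝ) (2 * π), HasDerivAt
      (fun t : ℝ => (sin (r * t) / r - t / 2 - sin (r * t) * cos (r * t) / (2 * r)) / r)
      (cos (r * t + 0 * sin t) * SS r 0 t) t := by
    intro t _
    have h2 : HasDerivAt (fun s : ℝ => (r:ℝ) * s) ((r:ℝ) * 1) t :=
      (hasDerivAt_id t).const_mul (r:ℝ)
    have h3 := (((h2.sin.div_const (r:ℝ)).sub ((hasDerivAt_id t).div_const 2)).sub
      ((h2.sin.mul h2.cos).div_const (2 * (r:ℝ)))).div_const (r:ℝ)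
    refine h3.congr_deriv ?_
    rw [hS]
    have hsc := sin_sq_add_cos_sq ((r:ℝ) * t)
    simp only [zero_mul, add_zero]
    set c := cos ((r:ℝ) * t) with hc
    set s := sin ((r:ℝ) * t) with hs
    field_simp
    linear_combination hsc
  rw [intervalIntegral.integral_eq_sub_of_hasDerivAt h1 (by
    have h3 := SS_cont' r 0
    have h4 : Continuous (fun t : ℝ => cos (r * t + 0 * sin t)) := by fun_prop
    exact (h4.mul h3).intervalIntegrable _ _)]
  have e1 : sin ((r:ℝ) * (2 * π)) = 0 := by
    have : (r:ℝ) * (2 * π) = ((2 * r : ℤ) : ℝ) * π := by push_cast; ring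
    rw [this, sin_int_mul_pi]
  rw [e1]
  simp
  ring

section
variable {e a : ℝ} {r : ℤ}

/-- Distance to the averaged phase. -/
lemma near (he : 0 < e) (x : ℝ) {t : ℝ} (ht0 : 0 ≤ t) (ht : t ≤ 2 * π) :
    |sol e a r x t - (x + (r * t + a * sin t))| ≤ 2 * π * e := by
  have h := sol_integral (isSol_sol e a r x) t
  rw [sol_zero] at h
  have h1 : sol e a r x t - (x + (r * t + a * sin t))
      = -(e * ∫ s in (0:ℝ)..t, sin (sol e a r x s)) := by rw [h]; ring
  rw [h1, abs_neg, abs_mul, abs_of_pos he]
  have h2 := abs_int_sin_le (φ := sol e a r x) t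
  have h3 : |t| ≤ 2 * π := by rw [abs_of_nonneg ht0]; exact ht
  nlinarith

lemma int_sin_near (he : 0 < e) (x : ℝ) {t : ℝ} (ht0 : 0 ≤ t) (ht : t ≤ 2 * π) :
    |(∫ s in (0:ℝ)..t, sin (sol e a r x s)) - ∫ s in (0:ℝ)..t, sin (x + (r * s + a * sin s))|
      ≤ 4 * π ^ 2 * e := by
  have hc := sol_cont e a r x
  rw [← intervalIntegral.integral_sub (Continuous.intervalIntegrable (by fun_prop) _ _)
    (Continuous.intervalIntegrable (by fun_prop) _ _)]
  have := intervalIntegral.norm_integral_le_of_norm_le_const (a := (0:ℝ)) (b := t)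
    (f := fun s : ℝ => sin (sol e a r x s) - sin (x + (r * s + a * sin s))) (C := 2 * π * e)
    (fun s hs => by
      rw [uIoc_of_le ht0] at hs
      exact (sin_lip _ _).trans (near he x hs.1.le (hs.2.trans ht)))
  rw [Real.norm_eq_abs, sub_zero, abs_of_nonneg ht0] at this
  refine this.trans ?_
  have := mul_le_mul_of_nonneg_left ht (by positivity : 0 ≤ 2 * π * e)
  linarith

lemma int_pi_half (a : ℝ) (r : ℤ) :
    ∫ s in (0:ℝ)..(2 * π), sin (π / 2 + (r * s + a * sin s)) = CC r a := by
  unfold CC
  apply intervalIntegral.integral_congr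
  intro s _
  simp only
  rw [add_comm, sin_add_pi_div_two]

lemma int_neg_pi_half (a : ℝ) (r : ℤ) :
    ∫ s in (0:ℝ)..(2 * π), sin (-(π / 2) + (r * s + a * sin s)) = -CC r a := by
  unfold CC
  rw [← intervalIntegral.integral_neg]
  apply intervalIntegral.integral_congr
  intro s _
  simp only
  rw [add_comm, ← sub_eq_add_neg, sin_sub_pi_div_two]

/-- First order obstruction. -/
lemma triv_CC (he : 0 < e) (h : ∀ x, PP e a r x = x + 2 * π * r) :
    |CC r a| ≤ 4 * π ^ 2 * e := by
  have h1 := sin_int_all h (π / 2)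
  rw [sub_self, mul_zero] at h1
  have h2 : ∫ s in (0:ℝ)..(2 * π), sin (sol e a r (π / 2) s) = 0 := by
    rcases mul_eq_zero.1 h1 with h3 | h3
    · exact absurd h3 he.ne'
    · exact h3
  have h3 := int_sin_near (a := a) (r := r) he (π / 2) two_pi_pos.le le_rfl
  rw [h2, int_pi_half, zero_sub, abs_neg] at h3
  exact h3

lemma sin_taylor (θ v : ℝ) : |sin (θ - v) - sin θ + v * cos θ| ≤ v ^ 2 := by
  have h1 : sin (θ - v) - sin θ + v * cos θ
      = sin θ * (cos v - 1) - cos θ * (sin v - v) := by
    rw [sin_sub]; ring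
  rw [h1]
  have h2 : |cos v - 1| ≤ v ^ 2 / 2 := by
    have := one_sub_sq_div_two_le_cos (x := v)
    rw [abs_sub_comm, abs_of_nonneg (by linarith [cos_le_one v])]
    linarith
  have h3 : |sin v - v| ≤ v ^ 2 / 2 := by
    have key : ∀ w : ℝ, 0 ≤ w → |sin w - w| ≤ w ^ 2 / 2 := by
      intro w hw
      have hm : ∀ x : ℝ, 0 ≤ x → x - x ^ 2 / 2 ≤ sin x := by
        intro x hx
        have hmono : MonotoneOn (fun x : ℝ => sin x - (x - x ^ 2 / 2)) (Ici 0) := by
          apply monotoneOn_of_deriv_nonneg (convex_Ici 0) (by fun_prop)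
          · intro y _; exact DifferentiableAt.differentiableWithinAt (by fun_prop)
          · intro y hy
            rw [interior_Ici] at hy
            have hd : HasDerivAt (fun x : ℝ => sin x - (x - x ^ 2 / 2))
                (cos y - (1 - (2 * y) / 2)) y := by
              have h4 := (hasDerivAt_pow 2 y).div_const 2
              have h5 := (hasDerivAt_sin y).sub ((hasDerivAt_id y).sub h4)
              refine h5.congr_deriv ?_
              norm_num
            rw [hd.deriv]
            rcases le_total y 2 with hy2 | hy2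
            · have := one_sub_sq_div_two_le_cos (x := y)
              have hy0 : 0 < y := hy
              nlinarith
            · have := neg_one_le_cos y
              linarith
        have := hmono (self_mem_Ici) hx hx
        simp at this
        linarith
      rw [abs_sub_comm, abs_of_nonneg (by linarith [sin_le hw])]
      linarith [hm w hw]
    rcases le_total 0 v with hv | hv
    · exact key v hv
    · have := key (-v) (by linarith)
      rw [sin_neg] at this
      have e1 : -sin v - -v = -(sin v - v) := by ring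
      rw [e1, abs_neg] at this
      linarith
  have h4 := abs_sin_le_one θ
  have h5 := abs_cos_le_one θ
  calc |sin θ * (cos v - 1) - cos θ * (sin v - v)|
      ≤ |sin θ * (cos v - 1)| + |cos θ * (sin v - v)| := abs_sub _ _
    _ = |sin θ| * |cos v - 1| + |cos θ| * |sin v - v| := by rw [abs_mul, abs_mul]
    _ ≤ 1 * (v ^ 2 / 2) + 1 * (v ^ 2 / 2) := by gcongr
    _ = v ^ 2 := by ring

/-- Second order obstruction. -/
lemma triv_DD (he : 0 < e) (h : ∀ x, PP e a r x = x + 2 * π * r) :
    |DD r a| ≤ 16 * π ^ 3 * e := by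
  have hz : ∀ x, ∫ s in (0:ℝ)..(2 * π), sin (sol e a r x s) = 0 := by
    intro x
    have h1 := sin_int_all h x
    rw [sub_self, mul_zero] at h1
    rcases mul_eq_zero.1 h1 with h3 | h3
    · exact absurd h3 he.ne'
    · exact h3
  set S0 : ℝ → ℝ := fun t => ∫ s in (0:ℝ)..t, sin (sol e a r 0 s) with hS0
  set Sp : ℝ → ℝ := fun t => ∫ s in (0:ℝ)..t, sin (sol e a r π s) with hSp
  have hc0 := sol_cont e a r 0
  have hcp := sol_cont e a r π
  have hS0c : Continuous S0 :=
    intervalIntegral.continuous_primitive (fun _ _ => Continuous.intervalIntegrable (by fun_prop) _ _) 0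
  have hSpc : Continuous Sp :=
    intervalIntegral.continuous_primitive (fun _ _ => Continuous.intervalIntegrable (by fun_prop) _ _) 0
  have hSc : Continuous (SS r a) := SS_cont' r a
  set θ : ℝ → ℝ := fun t => r * t + a * sin t with hθ
  have hθc : Continuous θ := by rw [hθ]; fun_prop
  have e0 : ∀ t, sol e a r 0 t = θ t - e * S0 t := by
    intro t
    have := sol_integral (isSol_sol e a r 0) t
    rw [sol_zero] at this
    rw [this]; simp only [hθ, hS0]; ring
  have ep : ∀ t, sol e a r π t = (θ t - e * Sp t) + π := by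
    intro t
    have := sol_integral (isSol_sol e a r π) t
    rw [sol_zero] at this
    rw [this]; simp only [hθ, hSp]; ring
  have z0 : ∫ s in (0:ℝ)..(2 * π), sin (θ s - e * S0 s) = 0 := by
    refine Eq.trans ?_ (hz 0)
    apply intervalIntegral.integral_congr
    intro s _
    simp only
    rw [e0]
  have zp : ∫ s in (0:ℝ)..(2 * π), sin (θ s - e * Sp s) = 0 := by
    have : ∫ s in (0:ℝ)..(2 * π), sin (θ s - e * Sp s)
        = -∫ s in (0:ℝ)..(2 * π), sin (sol e a r π s) := by
      rw [← intervalIntegral.integral_neg]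
      apply intervalIntegral.integral_congr
      intro s _
      simp only
      rw [ep, sin_add_pi]; ring
    rw [this, hz]; simp
  -- pointwise bounds
  have b0 : ∀ t ∈ uIoc 0 (2 * π), |S0 t - SS r a t| ≤ 4 * π ^ 2 * e := by
    intro t ht
    rw [uIoc_of_le two_pi_pos.le] at ht
    have := int_sin_near (a := a) (r := r) he 0 ht.1.le ht.2
    simp only [zero_add] at this
    exact this
  have bp : ∀ t ∈ uIoc 0 (2 * π), |Sp t + SS r a t| ≤ 4 * π ^ 2 * e := by
    intro t ht
    rw [uIoc_of_le two_pi_pos.le] at ht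
    have := int_sin_near (a := a) (r := r) he π ht.1.le ht.2
    have e1 : ∫ s in (0:ℝ)..t, sin (π + (r * s + a * sin s)) = -SS r a t := by
      unfold SS
      rw [← intervalIntegral.integral_neg]
      apply intervalIntegral.integral_congr
      intro s _
      simp only
      rw [add_comm, sin_add_pi]
    rw [e1, sub_neg_eq_add] at this
    exact this
  have c0 : ∀ t ∈ uIoc 0 (2 * π), |S0 t| ≤ 2 * π := by
    intro t ht
    rw [uIoc_of_le two_pi_pos.le] at ht
    have := abs_int_sin_le (φ := sol e a r 0) t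
    rw [abs_of_pos ht.1] at this
    linarith [ht.2]
  have cp : ∀ t ∈ uIoc 0 (2 * π), |Sp t| ≤ 2 * π := by
    intro t ht
    rw [uIoc_of_le two_pi_pos.le] at ht
    have := abs_int_sin_le (φ := sol e a r π) t
    rw [abs_of_pos ht.1] at this
    linarith [ht.2]
  have hpt : ∀ t ∈ uIoc 0 (2 * π),
      ‖(sin (θ t - e * S0 t) - sin (θ t - e * Sp t)) + 2 * e * (cos (θ t) * SS r a t)‖
        ≤ 16 * π ^ 2 * e ^ 2 := by
    intro t ht
    have t0 := sin_taylor (θ t) (e * S0 t)
    have tp := sin_taylor (θ t) (e * Sp t)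
    have q0 : (e * S0 t) ^ 2 ≤ 4 * π ^ 2 * e ^ 2 := by
      have := c0 t ht
      have h1 : S0 t ^ 2 ≤ (2 * π) ^ 2 := sq_le_sq' (by linarith [abs_le.1 this]) (abs_le.1 this).2
      rw [mul_pow]
      nlinarith [sq_nonneg e]
    have qp : (e * Sp t) ^ 2 ≤ 4 * π ^ 2 * e ^ 2 := by
      have := cp t ht
      have h1 : Sp t ^ 2 ≤ (2 * π) ^ 2 := sq_le_sq' (by linarith [abs_le.1 this]) (abs_le.1 this).2
      rw [mul_pow]
      nlinarith [sq_nonneg e]
    have hd : |cos (θ t) * e * ((S0 t - SS r a t) - (Sp t + SS r a t))| ≤ 8 * π ^ 2 * e ^ 2 := by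
      rw [abs_mul, abs_mul, abs_of_pos he]
      have h1 : |(S0 t - SS r a t) - (Sp t + SS r a t)| ≤ 8 * π ^ 2 * e := by
        have := abs_sub (S0 t - SS r a t) (Sp t + SS r a t)
        linarith [b0 t ht, bp t ht]
      have h2 := abs_cos_le_one (θ t)
      calc |cos (θ t)| * e * |(S0 t - SS r a t) - (Sp t + SS r a t)|
          ≤ 1 * e * (8 * π ^ 2 * e) := by gcongr
        _ = 8 * π ^ 2 * e ^ 2 := by ring
    rw [Real.norm_eq_abs]
    have e1 : (sin (θ t - e * S0 t) - sin (θ t - e * Sp t)) + 2 * e * (cos (θ t) * SS r a t)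
        = (sin (θ t - e * S0 t) - sin (θ t) + e * S0 t * cos (θ t))
          - (sin (θ t - e * Sp t) - sin (θ t) + e * Sp t * cos (θ t))
          - cos (θ t) * e * ((S0 t - SS r a t) - (Sp t + SS r a t)) := by ring
    rw [e1]
    have h1 := abs_sub ((sin (θ t - e * S0 t) - sin (θ t) + e * S0 t * cos (θ t))
          - (sin (θ t - e * Sp t) - sin (θ t) + e * Sp t * cos (θ t)))
          (cos (θ t) * e * ((S0 t - SS r a t) - (Sp t + SS r a t)))
    have h2 := abs_sub (sin (θ t - e * S0 t) - sin (θ t) + e * S0 t * cos (θ t))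
          (sin (θ t - e * Sp t) - sin (θ t) + e * Sp t * cos (θ t))
    linarith
  have hfin := intervalIntegral.norm_integral_le_of_norm_le_const hpt
  have hint : ∫ t in (0:ℝ)..(2 * π),
      ((sin (θ t - e * S0 t) - sin (θ t - e * Sp t)) + 2 * e * (cos (θ t) * SS r a t))
      = 2 * e * DD r a := by
    rw [intervalIntegral.integral_add, intervalIntegral.integral_sub, z0, zp,
      intervalIntegral.integral_const_mul]
    · simp only [sub_self, zero_add]
      rfl
    all_goals exact Continuous.intervalIntegrable (by fun_prop) _ _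
  rw [hint, Real.norm_eq_abs, abs_mul, abs_of_pos (by positivity : 0 < 2 * e), sub_zero,
    abs_of_pos two_pi_pos] at hfin
  have hp := pi_pos
  have h5 : 2 * e * |DD r a| ≤ 2 * e * (16 * π ^ 3 * e) := by
    calc 2 * e * |DD r a| ≤ 16 * π ^ 2 * e ^ 2 * (2 * π) := hfin
      _ = 2 * e * (16 * π ^ 3 * e) := by ring
  exact le_of_mul_le_mul_left h5 (by positivity)

end

end Pool.Agent.V1185.Jos
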