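import Pool.Agent.V1185.Jos.Avg

open Set Real Filter Topology MeasureTheory

namespace Pool.Agent.V1185.Jos

lemma exp_hasSum (w : ℂ) : HasSum (fun n : ℕ => w ^ n / n.factorial) (Complex.exp w) := by
  rw [Complex.exp_eq_exp_ℂ]
  exact NormedSpace.expSeries_div_hasSum_exp w

lemma exp_summable_real (x : ℝ) : Summable (fun n : ℕ => x ^ n / n.factorial) :=
  Real.summable_pow_div_factorial x

lemma exp_int_zero (n : ℤ) (hn : n ≠ 0) :
    ∫ t in (0:ℝ)..(2 * π), Complex.exp (Complex.I * n * t) = 0 := by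
  have hc : (Complex.I * n : ℂ) ≠ 0 := mul_ne_zero Complex.I_ne_zero (by exact_mod_cast hn)
  rw [integral_exp_mul_complex hc]
  have : Complex.I * n * ((2 * π : ℝ) : ℂ) = n * (2 * π * Complex.I) := by push_cast; ring
  rw [this, Complex.exp_int_mul_two_pi_mul_I]
  simp

/-- The terms of the double series. -/
noncomputable def FF (r : ℕ) (a : ℝ) (p : ℕ × ℕ) (t : ℝ) : ℂ :=
  Complex.exp (Complex.I * r * t) *
    (((a / 2 : ℂ) * Complex.exp (Complex.I * t)) ^ p.1 / p.1.factorial *
      ((-(a / 2 : ℂ) * Complex.exp (-(Complex.I * t))) ^ p.2 / p.2.factorial))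

lemma FF_norm (r : ℕ) (a : ℝ) (p : ℕ × ℕ) (t : ℝ) :
    ‖FF r a p t‖ = (|a / 2|) ^ p.1 / p.1.factorial * ((|a / 2|) ^ p.2 / p.2.factorial) := by
  unfold FF
  have h1 : ∀ u : ℝ, ‖Complex.exp (Complex.I * u)‖ = 1 := by
    intro u
    rw [mul_comm, Complex.norm_exp_ofReal_mul_I]
  have e1 : ‖Complex.exp (Complex.I * r * t)‖ = 1 := by
    have : Complex.I * r * t = Complex.I * ((r * t : ℝ) : ℂ) := by push_cast; ring
    rw [this, h1]
  have e2 : ‖Complex.exp (-(Complex.I * t))‖ = 1 := by
    have : -(Complex.I * t) = Complex.I * ((-t : ℝ) : ℂ) := by push_cast; ring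
    rw [this, h1]
  have e3 : ‖(a / 2 : ℂ)‖ = |a / 2| := by
    have : (a / 2 : ℂ) = ((a / 2 : ℝ) : ℂ) := by push_cast; ring
    rw [this, Complex.norm_real, Real.norm_eq_abs]
  rw [norm_mul, norm_mul, norm_div, norm_div, norm_pow, norm_pow, norm_mul, norm_mul, norm_neg, e1,
    h1, e2, e3, Complex.norm_natCast, Complex.norm_natCast]
  simp

lemma FF_eq (r : ℕ) (a : ℝ) (p : ℕ × ℕ) (t : ℝ) :
    FF r a p t = ((a / 2 : ℂ) ^ p.1 / p.1.factorial * ((-(a / 2 : ℂ)) ^ p.2 / p.2.factorial)) *
      Complex.exp (Complex.I * ((r + p.1 - p.2 : ℤ) : ℂ) * t) := by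
  unfold FF
  rw [mul_pow, mul_pow, ← Complex.exp_nat_mul, ← Complex.exp_nat_mul]
  have : Complex.exp (Complex.I * ((r + p.1 - p.2 : ℤ) : ℂ) * t)
      = Complex.exp (Complex.I * r * t) * Complex.exp (p.1 * (Complex.I * t)) *
        Complex.exp (p.2 * (-(Complex.I * t))) := by
    rw [← Complex.exp_add, ← Complex.exp_add]
    congr 1
    push_cast
    ring
  rw [this]
  ring

lemma FF_int (r : ℕ) (a : ℝ) (p : ℕ × ℕ) :
    ∫ t in (0:ℝ)..(2 * π), FF r a p t
      = if p.2 = p.1 + r then
        ((a / 2 : ℂ) ^ p.1 / p.1.factorial * ((-(a / 2 : ℂ)) ^ p.2 / p.2.factorial)) * (2 * π)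
        else 0 := by
  simp_rw [FF_eq]
  rw [intervalIntegral.integral_const_mul]
  split_ifs with h
  · have : (r + p.1 - p.2 : ℤ) = 0 := by rw [h]; push_cast; ring
    rw [this]
    simp
  · rw [exp_int_zero _ (by intro h2; apply h; omega), mul_zero]

lemma exp_split (r : ℕ) (a : ℝ) (t : ℝ) : Complex.exp (Complex.I * r * t) *
      (Complex.exp ((a / 2 : ℂ) * Complex.exp (Complex.I * t)) *
        Complex.exp (-(a / 2 : ℂ) * Complex.exp (-(Complex.I * t))))
      = Complex.exp (Complex.I * ((r * t + a * sin t : ℝ) : ℂ)) := by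
  have e2 : Complex.sin t = (Complex.exp (-(Complex.I * t)) - Complex.exp (Complex.I * t))
      * Complex.I / 2 := by
    rw [Complex.sin]
    congr 3
    · congr 1; ring
    · congr 1; ring
  rw [← Complex.exp_add, ← Complex.exp_add]
  have e3 : ((r * t + a * sin t : ℝ) : ℂ) = r * t + a * Complex.sin t := by push_cast; ring
  rw [e3, e2]
  have hI : Complex.I ^ 2 = -1 := Complex.I_sq
  generalize Complex.exp (-(Complex.I * t)) = u
  generalize Complex.exp (Complex.I * t) = v
  congr 1
  linear_combination (-((a:ℂ) / 2) * (u - v)) * hI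

lemma FF_hasSum (r : ℕ) (a : ℝ) (t : ℝ) :
    HasSum (fun p => FF r a p t) (Complex.exp (Complex.I * ((r * t + a * sin t : ℝ) : ℂ))) := by
  rw [← exp_split]
  unfold FF
  generalize (a / 2 : ℂ) * Complex.exp (Complex.I * t) = u
  generalize -(a / 2 : ℂ) * Complex.exp (-(Complex.I * t)) = v
  generalize Complex.exp (Complex.I * r * t) = w
  have h1 := exp_hasSum u
  have h2 := exp_hasSum v
  have hs1 : Summable (fun n : ℕ => ‖u ^ n / n.factorial‖) := by
    refine (exp_summable_real ‖u‖).congr fun n => ?_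
    rw [norm_div, norm_pow, Complex.norm_natCast]
  have hs2 : Summable (fun n : ℕ => ‖v ^ n / n.factorial‖) := by
    refine (exp_summable_real ‖v‖).congr fun n => ?_
    rw [norm_div, norm_pow, Complex.norm_natCast]
  have h3 := summable_mul_of_summable_norm hs1 hs2
  exact (h1.mul h2 h3).mul_left w

lemma CC_hasSum (r : ℕ) (a : ℝ) :
    HasSum (fun p : ℕ => 2 * π * (-1) ^ r * (a / 2) ^ r *
      ((-1) ^ p * ((a ^ 2 / 4) ^ p / (p.factorial * (p + r).factorial)))) (CC r a) := by
  have hsum : Summable (fun p : ℕ × ℕ =>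
      (|a / 2|) ^ p.1 / p.1.factorial * ((|a / 2|) ^ p.2 / p.2.factorial)) := by
    apply (exp_summable_real |a / 2|).mul_of_nonneg (exp_summable_real |a / 2|)
    · intro n; positivity
    · intro n; positivity
  have h := intervalIntegral.hasSum_integral_of_dominated_convergence (μ := volume)
    (a := (0:ℝ)) (b := 2 * π) (F := FF r a)
    (f := fun t => Complex.exp (Complex.I * ((r * t + a * sin t : ℝ) : ℂ)))
    (fun p _ => (|a / 2|) ^ p.1 / p.1.factorial * ((|a / 2|) ^ p.2 / p.2.factorial))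
    (fun p => by
      have : Continuous (FF r a p) := by unfold FF; fun_prop
      exact this.aestronglyMeasurable)
    (fun p => Eventually.of_forall fun t _ => (FF_norm r a p t).le)
    (Eventually.of_forall fun t _ => hsum)
    intervalIntegrable_const
    (Eventually.of_forall fun t _ => FF_hasSum r a t)
  simp_rw [FF_int] at h
  have hinj : Function.Injective (fun p : ℕ => (p, p + r)) := fun x y hxy => by
    simp only [Prod.mk.injEq] at hxy
    exact hxy.1
  rw [← hinj.hasSum_iff] at h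
  · have h2 := Complex.reCLM.hasSum h
    have e1 : Complex.reCLM (∫ t in (0:ℝ)..(2 * π),
        Complex.exp (Complex.I * ((r * t + a * sin t : ℝ) : ℂ))) = CC r a := by
      rw [← ContinuousLinearMap.intervalIntegral_comp_comm]
      · unfold CC
        apply intervalIntegral.integral_congr
        intro t _
        simp only [Complex.reCLM_apply]
        rw [mul_comm Complex.I, Complex.exp_ofReal_mul_I_re]
        simp
      · exact Continuous.intervalIntegrable (by fun_prop) _ _
    rw [e1] at h2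
    convert h2 using 2 with p
    simp only [Function.comp_apply, if_true]
    have e3 : ((a / 2 : ℂ) ^ p / p.factorial * ((-(a / 2 : ℂ)) ^ (p + r) / (p + r).factorial)) * (2 * π)
        = (((2 * π * (-1) ^ r * (a / 2) ^ r *
      ((-1) ^ p * ((a ^ 2 / 4) ^ p / (p.factorial * (p + r).factorial))) : ℝ)) : ℂ) := by
      push_cast
      have h4 : (-(a / 2 : ℂ)) ^ (p + r) = (-1) ^ r * (-1) ^ p * (a / 2 : ℂ) ^ p * (a / 2 : ℂ) ^ r := by
        rw [neg_pow, pow_add, pow_add]; ring
      have h5 : ((a:ℂ) ^ 2 / 4) ^ p = (a / 2 : ℂ) ^ p * (a / 2 : ℂ) ^ p := by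
        rw [← mul_pow]; congr 1; ring
      rw [h4, h5]
      ring
    rw [e3, Complex.reCLM_apply, Complex.ofReal_re]
  · intro x hx
    rw [if_neg]
    intro h3
    exact hx ⟨x.1, by simp only; rw [← h3]⟩

end Pool.Agent.V1185.Jos
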