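import Pool.Agent.V1185.Jos.Ode

open Set Real Filter Topology MeasureTheory

namespace Pool.Agent.V1185.Jos

lemma s_formula {e a b : ℝ} {φ ψ : ℝ → ℝ} (h₁ : IsSol e a b φ) (h₂ : IsSol e a b ψ) (t : ℝ) :
    sin ((φ t - ψ t) / 2) = sin ((φ 0 - ψ 0) / 2) *
      exp (-(e / 2 * ((∫ s in (0:ℝ)..t, cos (φ s)) + ∫ s in (0:ℝ)..t, cos (ψ s)))) := by
  have hc1 := h₁.continuous
  have hc2 := h₂.continuous
  have i1 : ∀ t, HasDerivAt (fun t => ∫ s in (0:ℝ)..t, cos (φ s)) (cos (φ t)) t := fun t =>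
    ((by fun_prop : Continuous fun s => cos (φ s)).integral_hasStrictDerivAt 0 t).hasDerivAt
  have i2 : ∀ t, HasDerivAt (fun t => ∫ s in (0:ℝ)..t, cos (ψ s)) (cos (ψ t)) t := fun t =>
    ((by fun_prop : Continuous fun s => cos (ψ s)).integral_hasStrictDerivAt 0 t).hasDerivAt
  let G : ℝ → ℝ := fun t => sin ((φ t - ψ t) / 2) *
    exp (e / 2 * ((∫ s in (0:ℝ)..t, cos (φ s)) + ∫ s in (0:ℝ)..t, cos (ψ s)))
  have hd : ∀ t, HasDerivAt G 0 t := by
    intro t
    have h3 := ((((h₁ t).sub (h₂ t)).div_const 2).sin).mul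
      (((((i1 t).add (i2 t)).const_mul (e / 2))).exp)
    refine h3.congr_deriv ?_
    simp only [Pi.sub_apply, Pi.add_apply]
    have e1 : b + a * cos t - e * sin (φ t) - (b + a * cos t - e * sin (ψ t))
        = -e * (sin (φ t) - sin (ψ t)) := by ring
    have e2 : cos (φ t) + cos (ψ t) = 2 * cos ((φ t + ψ t) / 2) * cos ((φ t - ψ t) / 2) :=
      cos_add_cos _ _
    rw [e1, sin_sub_sin, e2]
    ring
  have hconst := is_const_of_deriv_eq_zero (fun t => (hd t).differentiableAt)
    (fun t => (hd t).deriv) t 0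
  simp only [G, intervalIntegral.integral_same, add_zero, mul_zero, exp_zero, mul_one] at hconst
  rw [← hconst, mul_assoc, ← exp_add, add_neg_cancel, exp_zero, mul_one]

lemma isSol_rev {e a b : ℝ} {φ : ℝ → ℝ} (h : IsSol e a b φ) : IsSol e a b (fun t => π - φ (-t)) := by
  intro t
  have h1 : HasDerivAt (fun t => φ (-t)) (-(b + a * cos (-t) - e * sin (φ (-t)))) t := by
    have := (h (-t)).comp t (hasDerivAt_neg t)
    refine this.congr_deriv (by ring)
  have h2 := h1.const_sub π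
  refine h2.congr_deriv ?_
  rw [cos_neg, sin_pi_sub, neg_neg]

lemma cos_rev {e a b : ℝ} {φ : ℝ → ℝ} (h : IsSol e a b φ) (h0 : φ 0 = π / 2 ∨ φ 0 = -(π / 2))
    (t : ℝ) : cos (φ (-t)) = -cos (φ t) := by
  rcases h0 with h0 | h0
  · have h1 : (fun t => π - φ (-t)) = φ := by
      apply sol_unique (isSol_rev h) h
      simp only [neg_zero]
      rw [h0]; ring
    have h2 := congrFun h1 t
    have h3 : φ (-t) = π - φ t := by linarith
    rw [h3, cos_pi_sub]
  · have h1 : (fun t => π - φ (-t)) = fun t => φ t + 2 * π * (1 : ℤ) := by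
      apply sol_unique (isSol_rev h) (isSol_add_int h 1)
      simp only [neg_zero]
      rw [h0]; push_cast; ring
    have h2 := congrFun h1 t
    have h3 : φ (-t) = -(φ t + π) := by push_cast at h2; linarith
    rw [h3, cos_neg, cos_add_pi]

lemma cos_int_zero {e a b : ℝ} {r : ℤ} {x : ℝ} (hx : x = π / 2 ∨ x = -(π / 2))
    (hP : PP e a b x = x + 2 * π * r) : ∫ s in (0:ℝ)..(2 * π), cos (sol e a b x s) = 0 := by
  have hs := isSol_sol e a b x
  have hper : Function.Periodic (fun t => cos (sol e a b x t)) (2 * π) := by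
    intro t
    simp only
    rw [sol_shift, hP, sol_add_int, mul_comm (2 * π) (r:ℝ)]
    exact cos_add_int_mul_two_pi _ _
  have h1 := hper.intervalIntegral_add_eq 0 (-π)
  rw [zero_add] at h1
  have e1 : -π + 2 * π = π := by ring
  rw [e1] at h1
  rw [h1]
  have h2 : ∫ s in (-π)..π, cos (sol e a b x (-s)) = ∫ s in (-π)..π, cos (sol e a b x s) := by
    have := intervalIntegral.integral_comp_neg (a := -π) (b := π) (fun s => cos (sol e a b x s))
    rw [this, neg_neg]
  have h3 : ∫ s in (-π)..π, cos (sol e a b x (-s)) = -∫ s in (-π)..π, cos (sol e a b x s) := by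
    rw [← intervalIntegral.integral_neg]
    apply intervalIntegral.integral_congr
    intro s _
    exact cos_rev hs (by rw [sol_zero]; exact hx) s
  linarith

/-- Two fixed points at `± π/2` force the period map to be trivial. -/
lemma triv_of_two {e a b : ℝ} {r : ℤ} (h1 : PP e a b (π / 2) = π / 2 + 2 * π * r)
    (h2 : PP e a b (-(π / 2)) = -(π / 2) + 2 * π * r) (x : ℝ) : PP e a b x = x + 2 * π * r := by
  have c1 := cos_int_zero (Or.inl rfl) h1
  have c2 := cos_int_zero (Or.inr rfl) h2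
  have s1 := s_formula (isSol_sol e a b x) (isSol_sol e a b (π / 2)) (2 * π)
  have s2 := s_formula (isSol_sol e a b x) (isSol_sol e a b (-(π / 2))) (2 * π)
  rw [c1, add_zero, sol_zero, sol_zero] at s1
  rw [c2, add_zero, sol_zero, sol_zero] at s2
  change sin ((PP e a b x - PP e a b (π / 2)) / 2) = _ at s1
  change sin ((PP e a b x - PP e a b (-(π / 2))) / 2) = _ at s2
  rw [h1] at s1
  rw [h2] at s2
  set X := exp (-(e / 2 * ∫ s in (0:ℝ)..(2 * π), cos (sol e a b x s))) with hX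
  have hXp : 0 < X := exp_pos _
  set D := (PP e a b x - x - 2 * π * r) / 2 with hD
  set α := (x - π / 2) / 2 with hα
  have e1 : (PP e a b x - (π / 2 + 2 * π * r)) / 2 = α + D := by rw [hα, hD]; ring
  have e2 : (PP e a b x - (-(π / 2) + 2 * π * r)) / 2 = (α + D) + π / 2 := by rw [hα, hD]; ring
  have e3 : (x - -(π / 2)) / 2 = α + π / 2 := by rw [hα]; ring
  rw [e1] at s1
  rw [e2, e3, sin_add_pi_div_two, sin_add_pi_div_two] at s2
  have hX2 : X ^ 2 = 1 := by
    have h3 := sin_sq_add_cos_sq (α + D)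
    rw [s1, s2] at h3
    have h4 := sin_sq_add_cos_sq α
    have : (sin α * X) ^ 2 + (cos α * X) ^ 2 = X ^ 2 * (sin α ^ 2 + cos α ^ 2) := by ring
    rw [this, h4, mul_one] at h3
    exact h3
  have hX1 : X = 1 := by nlinarith
  rw [hX1, mul_one] at s1 s2
  have hcosD : cos D = 1 := by
    have : D = (α + D) - α := by ring
    rw [this, cos_sub, s1, s2]
    have := sin_sq_add_cos_sq α
    nlinarith
  -- `|D| < π`
  have hpi := pi_pos
  set k : ℤ := ⌊(x - π / 2) / (2 * π)⌋ with hk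
  have hk1 : π / 2 + 2 * π * k ≤ x := by
    have := Int.floor_le ((x - π / 2) / (2 * π))
    rw [le_div_iff₀ (by positivity), ← hk] at this
    linarith
  have hk2 : x < π / 2 + 2 * π * (k + 1 : ℤ) := by
    have := Int.lt_floor_add_one ((x - π / 2) / (2 * π))
    rw [div_lt_iff₀ (by positivity), ← hk] at this
    push_cast; linarith
  have g1 := (PP_strictMono e a b).monotone hk1
  have g2 := PP_strictMono e a b hk2
  rw [PP_add_int, h1] at g1 g2
  push_cast at g2 hk2
  have hD1 : -(2 * π) < D := by rw [hD]; linarith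
  have hD2 : D < 2 * π := by rw [hD]; linarith
  have hD0 := (cos_eq_one_iff_of_lt_of_lt hD1 hD2).1 hcosD
  rw [hD] at hD0
  linarith

lemma cos_int_all {e a b : ℝ} {r : ℤ} (he : e ≠ 0) (h : ∀ x, PP e a b x = x + 2 * π * r) (x : ℝ) :
    ∫ s in (0:ℝ)..(2 * π), cos (sol e a b x s) = 0 := by
  have key : ∀ x y, sin ((x - y) / 2) ≠ 0 → (∫ s in (0:ℝ)..(2 * π), cos (sol e a b x s))
      + ∫ s in (0:ℝ)..(2 * π), cos (sol e a b y s) = 0 := by
    intro x y hxy
    have s1 := s_formula (isSol_sol e a b x) (isSol_sol e a b y) (2 * π)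
    rw [sol_zero, sol_zero] at s1
    change sin ((PP e a b x - PP e a b y) / 2) = _ at s1
    rw [h x, h y] at s1
    have e1 : (x + 2 * π * r - (y + 2 * π * r)) / 2 = (x - y) / 2 := by ring
    rw [e1] at s1
    have h2 := mul_left_cancel₀ hxy ((mul_one _).trans s1)
    have h3 := (Real.exp_eq_one_iff _).1 h2.symm
    have h4 : e / 2 * ((∫ s in (0:ℝ)..(2 * π), cos (sol e a b x s)) +
        ∫ s in (0:ℝ)..(2 * π), cos (sol e a b y s)) = 0 := by linarith
    rcases mul_eq_zero.1 h4 with h5 | h5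
    · exfalso; apply he; linarith
    · exact h5
  have hs1 : sin (1 / 2 : ℝ) ≠ 0 := (sin_pos_of_pos_of_lt_pi (by norm_num)
    (by linarith [pi_gt_three])).ne'
  have hs2 : sin (1 : ℝ) ≠ 0 := (sin_pos_of_pos_of_lt_pi (by norm_num)
    (by linarith [pi_gt_three])).ne'
  have k1 := key (x + 1) x (by rw [show (x + 1 - x) / 2 = 1 / 2 by ring]; exact hs1)
  have k2 := key (x + 2) (x + 1) (by rw [show (x + 2 - (x + 1)) / 2 = 1 / 2 by ring]; exact hs1)
  have k3 := key (x + 2) x (by rw [show (x + 2 - x) / 2 = 1 by ring]; exact hs2)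
  linarith

lemma sin_int_all {e a b : ℝ} {r : ℤ} (h : ∀ x, PP e a b x = x + 2 * π * r) (x : ℝ) :
    e * ∫ s in (0:ℝ)..(2 * π), sin (sol e a b x s) = 2 * π * (b - r) := by
  have h1 := sol_integral (isSol_sol e a b x) (2 * π)
  rw [sol_zero, sin_two_pi, mul_zero, add_zero] at h1
  change PP e a b x = _ at h1
  rw [h x] at h1
  linarith

lemma abs_int_sin_le {φ : ℝ → ℝ} (t : ℝ) :
    |∫ s in (0:ℝ)..t, sin (φ s)| ≤ |t| := by
  have := intervalIntegral.norm_integral_le_of_norm_le_const (a := (0:ℝ)) (b := t)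
    (f := fun s => sin (φ s)) (C := 1) (fun s _ => abs_sin_le_one _)
  simpa using this

lemma b_near {e a b : ℝ} {r : ℤ} (he : 0 < e) (h : ∀ x, PP e a b x = x + 2 * π * r) :
    |b - r| ≤ e := by
  have h1 := sin_int_all h 0
  have h2 := abs_int_sin_le (φ := sol e a b 0) (2 * π)
  have h3 : |2 * π * (b - r)| ≤ e * |2 * π| := by
    rw [← h1, abs_mul, abs_of_pos he]
    exact mul_le_mul_of_nonneg_left h2 he.le
  rw [abs_mul, mul_comm e] at h3
  exact le_of_mul_le_mul_left h3 (by positivity)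

end Pool.Agent.V1185.Jos
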