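import Pool.Agent.V1185.Jos.Avg

open Set Real Filter Topology MeasureTheory

namespace Pool.Agent.V1185.Jos

section
variable {e a : ℝ} {r : ℤ}

lemma PP_formula (e a b x : ℝ) : PP e a b x
    = x + 2 * π * b - e * ∫ s in (0:ℝ)..(2 * π), sin (sol e a b x s) := by
  have h := sol_integral (isSol_sol e a b x) (2 * π)
  rw [sol_zero, sin_two_pi, mul_zero, add_zero] at h
  unfold PP
  rw [h]; ring

lemma PP_low (he : 0 < e) (x : ℝ) : PP e a (r - e) x ≤ x + 2 * π * r := by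
  rw [PP_formula]
  have h2 := abs_int_sin_le (φ := sol e a (r - e) x) (2 * π)
  rw [abs_of_pos two_pi_pos] at h2
  have h3 := (abs_le.1 h2).1
  nlinarith

lemma PP_high (he : 0 < e) (x : ℝ) : x + 2 * π * r ≤ PP e a (r + e) x := by
  rw [PP_formula]
  have h2 := abs_int_sin_le (φ := sol e a (r + e) x) (2 * π)
  rw [abs_of_pos two_pi_pos] at h2
  have h3 := (abs_le.1 h2).2
  nlinarith

lemma exists_b (he : 0 < e) (a x : ℝ) (r : ℤ) :
    ∃ b ∈ Icc ((r:ℝ) - e) (r + e), PP e a b x = x + 2 * π * r := by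
  have hc : Continuous (fun b => PP e a b x) :=
    (PP_continuous e).comp (by fun_prop : Continuous fun b : ℝ => ((a, b, x) : ℝ × ℝ × ℝ))
  have h := intermediate_value_Icc (f := fun b => PP e a b x) (by linarith : (r:ℝ) - e ≤ r + e)
    hc.continuousOn
  obtain ⟨b, hb, hb2⟩ := h ⟨PP_low he x, PP_high he x⟩
  exact ⟨b, hb, hb2⟩

/-- Existence of a trivial parameter between sign changes. -/
lemma exists_triv (he : 0 < e) {L R : ℝ} (hLR : L ≤ R)
    (h : (4 * π ^ 2 * e < CC r L ∧ CC r R < -(4 * π ^ 2 * e)) ∨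
      (CC r L < -(4 * π ^ 2 * e) ∧ 4 * π ^ 2 * e < CC r R)) :
    ∃ a ∈ Icc L R, ∃ b, ∀ x, PP e a b x = x + 2 * π * r := by
  let K : Set (ℝ × ℝ) := Icc L R ×ˢ Icc ((r:ℝ) - e) (r + e)
  have hK : IsCompact K := isCompact_Icc.prod isCompact_Icc
  have c1 : Continuous (fun p : ℝ × ℝ => PP e p.1 p.2 (π / 2)) :=
    (PP_continuous e).comp (by fun_prop : Continuous fun p : ℝ × ℝ => ((p.1, p.2, π / 2) : ℝ × ℝ × ℝ))
  have c2 : Continuous (fun p : ℝ × ℝ => PP e p.1 p.2 (-(π / 2))) :=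
    (PP_continuous e).comp
      (by fun_prop : Continuous fun p : ℝ × ℝ => ((p.1, p.2, -(π / 2)) : ℝ × ℝ × ℝ))
  let T1 : Set (ℝ × ℝ) := {p | PP e p.1 p.2 (π / 2) ≤ π / 2 + 2 * π * r ∧
    -(π / 2) + 2 * π * r ≤ PP e p.1 p.2 (-(π / 2))}
  let T2 : Set (ℝ × ℝ) := {p | π / 2 + 2 * π * r ≤ PP e p.1 p.2 (π / 2) ∧
    PP e p.1 p.2 (-(π / 2)) ≤ -(π / 2) + 2 * π * r}
  have hT1 : IsClosed T1 :=
    (isClosed_le c1 continuous_const).inter (isClosed_le continuous_const c2)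
  have hT2 : IsClosed T2 :=
    (isClosed_le continuous_const c1).inter (isClosed_le c2 continuous_const)
  have hA1 : IsClosed (Prod.fst '' (K ∩ T1)) :=
    ((hK.inter_right hT1).image continuous_fst).isClosed
  have hA2 : IsClosed (Prod.fst '' (K ∩ T2)) :=
    ((hK.inter_right hT2).image continuous_fst).isClosed
  have hpos : ∀ a ∈ Icc L R, 4 * π ^ 2 * e < CC r a → a ∈ Prod.fst '' (K ∩ T1) := by
    intro a ha h1
    refine ⟨(a, r), ⟨⟨ha, by constructor <;> simp only <;> linarith⟩, ?_, ?_⟩, rfl⟩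
    · simp only
      rw [PP_formula]
      have h2 := int_sin_near (a := a) (r := r) he (π / 2) two_pi_pos.le le_rfl
      rw [int_pi_half] at h2
      have h3 := (abs_le.1 h2).1
      have h4 : 0 < ∫ s in (0:ℝ)..(2 * π), sin (sol e a r (π / 2) s) := by linarith
      nlinarith
    · simp only
      rw [PP_formula]
      have h2 := int_sin_near (a := a) (r := r) he (-(π / 2)) two_pi_pos.le le_rfl
      rw [int_neg_pi_half] at h2
      have h3 := (abs_le.1 h2).2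
      have h4 : ∫ s in (0:ℝ)..(2 * π), sin (sol e a r (-(π / 2)) s) < 0 := by linarith
      nlinarith
  have hneg : ∀ a ∈ Icc L R, CC r a < -(4 * π ^ 2 * e) → a ∈ Prod.fst '' (K ∩ T2) := by
    intro a ha h1
    refine ⟨(a, r), ⟨⟨ha, by constructor <;> simp only <;> linarith⟩, ?_, ?_⟩, rfl⟩
    · simp only
      rw [PP_formula]
      have h2 := int_sin_near (a := a) (r := r) he (π / 2) two_pi_pos.le le_rfl
      rw [int_pi_half] at h2
      have h3 := (abs_le.1 h2).2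
      have h4 : ∫ s in (0:ℝ)..(2 * π), sin (sol e a r (π / 2) s) < 0 := by linarith
      nlinarith
    · simp only
      rw [PP_formula]
      have h2 := int_sin_near (a := a) (r := r) he (-(π / 2)) two_pi_pos.le le_rfl
      rw [int_neg_pi_half] at h2
      have h3 := (abs_le.1 h2).1
      have h4 : 0 < ∫ s in (0:ℝ)..(2 * π), sin (sol e a r (-(π / 2)) s) := by linarith
      nlinarith
  have hcov : Icc L R ⊆ Prod.fst '' (K ∩ T1) ∪ Prod.fst '' (K ∩ T2) := by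
    intro a ha
    obtain ⟨b, hb, hb2⟩ := exists_b he a (π / 2) r
    rcases le_total (-(π / 2) + 2 * π * r) (PP e a b (-(π / 2))) with h1 | h1
    · left
      exact ⟨(a, b), ⟨⟨ha, hb⟩, hb2.le, h1⟩, rfl⟩
    · right
      exact ⟨(a, b), ⟨⟨ha, hb⟩, hb2.ge, h1⟩, rfl⟩
  have hLm : L ∈ Icc L R := ⟨le_rfl, hLR⟩
  have hRm : R ∈ Icc L R := ⟨hLR, le_rfl⟩
  have hne : (Icc L R ∩ Prod.fst '' (K ∩ T1)).Nonempty ∧
      (Icc L R ∩ Prod.fst '' (K ∩ T2)).Nonempty := by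
    rcases h with ⟨h1, h2⟩ | ⟨h1, h2⟩
    · exact ⟨⟨L, hLm, hpos L hLm h1⟩, ⟨R, hRm, hneg R hRm h2⟩⟩
    · exact ⟨⟨R, hRm, hpos R hRm h2⟩, ⟨L, hLm, hneg L hLm h1⟩⟩
  obtain ⟨a, ha, ⟨p, ⟨⟨-, -⟩, hp1, hp2⟩, hpa⟩, ⟨q, ⟨⟨-, -⟩, hq1, hq2⟩, hqa⟩⟩ :=
    isPreconnected_closed_iff.1 isPreconnected_Icc _ _ hA1 hA2 hcov hne.1 hne.2
  obtain ⟨p1, b1⟩ := p
  obtain ⟨q1, b2⟩ := q
  simp only at hpa hqa hp1 hp2 hq1 hq2
  subst hpa
  subst hqa
  have hb : b1 = b2 := by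
    rcases lt_trichotomy b1 b2 with h1 | h1 | h1
    · have := PP_lt_b e q1 (-(π / 2)) h1
      linarith
    · exact h1
    · have := PP_lt_b e q1 (π / 2) h1
      linarith
  subst hb
  exact ⟨q1, ha, b1, triv_of_two (le_antisymm hp1 hq1) (le_antisymm hq2 hp2)⟩

end

end Pool.Agent.V1185.Jos
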