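import Pool.Agent.V1185.Jos.Cross

open Set Real Filter Topology MeasureTheory

namespace Pool.Agent.V1185.Jos

/-- Uniqueness of Fourier coefficients. -/
lemma fourier_unique {W : ℝ → ℂ} (hW : Continuous W) (hper : W 0 = W (2 * π))
    (hc : ∀ j : ℤ, ∫ t in (0:ℝ)..(2 * π), Complex.exp (-(Complex.I * j * t)) * W t = 0) :
    ∀ t ∈ Ico 0 (2 * π), W t = 0 := by
  have : Fact (0 < 2 * π) := ⟨two_pi_pos⟩
  let F : C(AddCircle (2 * π), ℂ) :=
    ⟨AddCircle.liftIco (2 * π) 0 W, AddCircle.liftIco_zero_continuous hper hW.continuousOn⟩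
  have hco : fourierCoeff (F : AddCircle (2 * π) → ℂ) = 0 := by
    ext j
    have h1 : fourierCoeff (F : AddCircle (2 * π) → ℂ) j
        = (1 / (2 * π)) • ∫ t in (0:ℝ)..(0 + 2 * π), fourier (-j) (t : AddCircle (2 * π)) • F t :=
      fourierCoeff_eq_intervalIntegral _ _ 0
    rw [h1, zero_add]
    have h2 : ∫ t in (0:ℝ)..(2 * π), fourier (-j) (t : AddCircle (2 * π)) • F t
        = ∫ t in (0:ℝ)..(2 * π), Complex.exp (-(Complex.I * j * t)) * W t := by
      refine intervalIntegral.integral_congr_Ioo_of_le two_pi_pos.le fun t ht => ?_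
      rw [fourier_coe_apply]
      have h3 : F (t : AddCircle (2 * π)) = W t :=
        AddCircle.liftIco_zero_coe_apply (Ioo_subset_Ico_self ht)
      rw [h3, smul_eq_mul]
      congr 2
      have : (π : ℂ) ≠ 0 := by exact_mod_cast pi_ne_zero
      push_cast
      field_simp
    rw [h2, hc j]
    simp
  have hsum : Summable (fourierCoeff (F : AddCircle (2 * π) → ℂ)) := by
    rw [hco]; exact summable_zero
  intro t ht
  have h := has_pointwise_sum_fourier_series_of_summable hsum (t : AddCircle (2 * π))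
  rw [hco] at h
  simp only [Pi.zero_apply, zero_smul] at h
  have h0 := h.unique hasSum_zero
  have h3 : F (t : AddCircle (2 * π)) = W t := AddCircle.liftIco_zero_coe_apply ht
  rw [← h3]
  exact h0

section
variable (e a b : ℝ)

/-- `∫ e^{iφ}` -/
noncomputable def EI (x t : ℝ) : ℂ := ∫ s in (0:ℝ)..t, Complex.exp (Complex.I * sol e a b x s)

noncomputable def UU (x t : ℝ) : ℂ := Complex.exp (e / 2 * EI e a b x t)

noncomputable def GG (x t : ℝ) : ℂ := e / 2 * Complex.exp (Complex.I * sol e a b x t) * UU e a b x t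

noncomputable def GG' (x t : ℝ) : ℂ :=
  e ^ 2 / 4 * UU e a b x t + Complex.I * (b + a * Complex.cos t) * GG e a b x t

lemma sol_cont (x : ℝ) : Continuous (sol e a b x) := (isSol_sol e a b x).continuous

lemma hasDerivAt_EI (x t : ℝ) :
    HasDerivAt (EI e a b x) (Complex.exp (Complex.I * sol e a b x t)) t := by
  have hc := sol_cont e a b x
  have : Continuous (fun s : ℝ => Complex.exp (Complex.I * sol e a b x s)) := by fun_prop
  exact (this.integral_hasStrictDerivAt 0 t).hasDerivAt

lemma hasDerivAt_UU (x t : ℝ) : HasDerivAt (UU e a b x) (GG e a b x t) t := by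
  have h := ((hasDerivAt_EI e a b x t).const_mul ((e:ℂ) / 2)).cexp
  refine h.congr_deriv ?_
  unfold GG UU
  ring

lemma hasDerivAt_GG (x t : ℝ) : HasDerivAt (GG e a b x) (GG' e a b x t) t := by
  have h1 : HasDerivAt (fun t : ℝ => ((sol e a b x t : ℝ) : ℂ))
      ((b + a * cos t - e * sin (sol e a b x t) : ℝ) : ℂ) t := (isSol_sol e a b x t).ofReal_comp
  have h2 := ((h1.const_mul Complex.I).cexp).const_mul ((e:ℂ) / 2)
  have h3 := h2.mul (hasDerivAt_UU e a b x t)
  refine h3.congr_deriv ?_
  unfold GG' GG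
  set s := sol e a b x t with hs
  set U := UU e a b x t with hU
  have e1 : ((b + a * cos t - e * sin s : ℝ) : ℂ)
      = b + a * Complex.cos t - e * Complex.sin s := by push_cast; ring
  rw [e1]
  have e2 : Complex.sin s = (Complex.exp (-(Complex.I * s)) - Complex.exp (Complex.I * s))
      * Complex.I / 2 := by
    rw [Complex.sin]
    congr 3
    · congr 1; ring
    · congr 1; ring
  rw [e2]
  have e3 : Complex.exp (Complex.I * s) * Complex.exp (-(Complex.I * s)) = 1 := by
    rw [← Complex.exp_add]; simp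
  set E := Complex.exp (Complex.I * s) with hE
  set E' := Complex.exp (-(Complex.I * s)) with hE'
  have hI : Complex.I ^ 2 = -1 := Complex.I_sq
  linear_combination ((e:ℂ) ^ 2 / 4 * U) * e3 - ((e:ℂ) ^ 2 / 4 * U * E * (E' - E)) * hI

lemma cont_UU (x : ℝ) : Continuous (UU e a b x) :=
  continuous_iff_continuousAt.2 fun t => (hasDerivAt_UU e a b x t).continuousAt

lemma cont_GG (x : ℝ) : Continuous (GG e a b x) :=
  continuous_iff_continuousAt.2 fun t => (hasDerivAt_GG e a b x t).continuousAt

lemma cont_GG' (x : ℝ) : Continuous (GG' e a b x) := by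
  unfold GG'
  have h1 := cont_UU e a b x
  have h2 := cont_GG e a b x
  fun_prop

lemma UU_zero (x : ℝ) : UU e a b x 0 = 1 := by simp [UU, EI]

end

section
variable {e a b : ℝ} {r : ℤ}

lemma EI_period (he : e ≠ 0) (h : ∀ x, PP e a b x = x + 2 * π * r) (x : ℝ) :
    (e / 2 : ℂ) * EI e a b x (2 * π) = Complex.I * π * (b - r) := by
  have hc := sol_cont e a b x
  have h1 : EI e a b x (2 * π) = ((∫ s in (0:ℝ)..(2 * π), cos (sol e a b x s) : ℝ) : ℂ)
      + Complex.I * ((∫ s in (0:ℝ)..(2 * π), sin (sol e a b x s) : ℝ) : ℂ) := by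
    unfold EI
    rw [← intervalIntegral.integral_ofReal, ← intervalIntegral.integral_ofReal,
      ← intervalIntegral.integral_const_mul, ← intervalIntegral.integral_add]
    · apply intervalIntegral.integral_congr
      intro s _
      simp only
      rw [mul_comm Complex.I, Complex.exp_mul_I]
      push_cast
      ring
    · exact Continuous.intervalIntegrable (by fun_prop) _ _
    · exact Continuous.intervalIntegrable (by fun_prop) _ _
  rw [h1, cos_int_all he h x]
  have h2 := sin_int_all h x
  have h3 : ((e * ∫ s in (0:ℝ)..(2 * π), sin (sol e a b x s) : ℝ) : ℂ)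
      = ((2 * π * (b - r) : ℝ) : ℂ) := by rw [h2]
  push_cast at h3 ⊢
  linear_combination (Complex.I / 2) * h3

lemma UU_period (he : e ≠ 0) (h : ∀ x, PP e a b x = x + 2 * π * r) (x : ℝ) :
    UU e a b x (2 * π) = Complex.exp (Complex.I * π * (b - r)) := by
  unfold UU
  rw [EI_period he h]

lemma GG_period (he : e ≠ 0) (h : ∀ x, PP e a b x = x + 2 * π * r) (x : ℝ) :
    GG e a b x (2 * π) = Complex.exp (Complex.I * π * (b - r)) * GG e a b x 0 := by
  unfold GG
  rw [UU_period he h, UU_zero, sol_zero]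
  have : sol e a b x (2 * π) = x + 2 * π * r := h x
  rw [this]
  have e1 : Complex.exp (Complex.I * ((x + 2 * π * r : ℝ) : ℂ)) = Complex.exp (Complex.I * x) := by
    have : Complex.I * ((x + 2 * π * r : ℝ) : ℂ) = Complex.I * x + r * (2 * π * Complex.I) := by
      push_cast; ring
    rw [this, Complex.exp_add, Complex.exp_int_mul_two_pi_mul_I, mul_one]
  rw [e1]
  ring

/-- Integral against an exponential. -/
noncomputable def II (f : ℝ → ℂ) (l : ℝ) : ℂ :=
  ∫ t in (0:ℝ)..(2 * π), Complex.exp (-(Complex.I * l * t)) * f t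

lemma ibp {f f' : ℝ → ℂ} (hf : ∀ t, HasDerivAt f (f' t) t) (hf' : Continuous f')
    (hp : f (2 * π) = Complex.exp (Complex.I * π * (b - r)) * f 0) (j : ℤ) :
    II f' (j + (b - r) / 2) = Complex.I * ((j + (b - r) / 2 : ℝ) : ℂ) * II f (j + (b - r) / 2) := by
  set l : ℝ := j + (b - r) / 2 with hl
  have hfc : Continuous f := continuous_iff_continuousAt.2 fun t => (hf t).continuousAt
  have hexp : ∀ t : ℝ, HasDerivAt (fun t : ℝ => Complex.exp (-(Complex.I * l * t)))
      (-(Complex.I * l) * Complex.exp (-(Complex.I * l * t))) t := by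
    intro t
    have h0 : HasDerivAt (fun t : ℝ => ((t : ℝ) : ℂ)) ((1 : ℝ) : ℂ) t := (hasDerivAt_id t).ofReal_comp
    have h1 : HasDerivAt (fun t : ℝ => (-(Complex.I * l)) * (t:ℂ))
        (-(Complex.I * l) * ((1 : ℝ) : ℂ)) t := h0.const_mul _
    have h1' : (fun t : ℝ => (-(Complex.I * l)) * (t:ℂ)) = fun t : ℝ => -(Complex.I * l * (t:ℂ)) := by
      funext t; ring
    rw [h1'] at h1
    refine h1.cexp.congr_deriv ?_
    push_cast
    ring
  have h2 := intervalIntegral.integral_eq_sub_of_hasDerivAt (a := (0:ℝ)) (b := 2 * π)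
    (fun t _ => (hexp t).mul (hf t))
    (Continuous.intervalIntegrable (by fun_prop) _ _)
  simp only [Pi.mul_apply] at h2
  have h3 : Complex.exp (-(Complex.I * l * ((2 * π : ℝ) : ℂ))) * f (2 * π)
      = Complex.exp (-(Complex.I * l * ((0 : ℝ) : ℂ))) * f 0 := by
    rw [hp, ← mul_assoc, ← Complex.exp_add]
    have e1 : -(Complex.I * l * ((2 * π : ℝ) : ℂ)) + Complex.I * π * (b - r)
        = ((-j : ℤ) : ℂ) * (2 * π * Complex.I) := by
      rw [hl]; push_cast; ring
    rw [e1, Complex.exp_int_mul_two_pi_mul_I]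
    simp
  rw [h3, sub_self] at h2
  unfold II
  rw [intervalIntegral.integral_add] at h2
  · have h4 : ∫ t in (0:ℝ)..(2 * π), -(Complex.I * l) * Complex.exp (-(Complex.I * l * t)) * f t
        = -(Complex.I * l) * ∫ t in (0:ℝ)..(2 * π), Complex.exp (-(Complex.I * l * t)) * f t := by
      rw [← intervalIntegral.integral_const_mul]
      apply intervalIntegral.integral_congr
      intro t _
      simp only
      ring
    rw [h4] at h2
    linear_combination h2
  · exact Continuous.intervalIntegrable (by fun_prop) _ _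
  · exact Continuous.intervalIntegrable (by fun_prop) _ _

lemma II_cos {f : ℝ → ℂ} (hf : Continuous f) (l : ℝ) :
    II (fun t => Complex.cos t * f t) l = (II f (l - 1) + II f (l + 1)) / 2 := by
  unfold II
  rw [← intervalIntegral.integral_add, ← intervalIntegral.integral_div]
  · apply intervalIntegral.integral_congr
    intro t _
    simp only
    rw [Complex.cos]
    have e1 : Complex.exp (-(Complex.I * ((l - 1 : ℝ) : ℂ) * t))
        = Complex.exp (-(Complex.I * l * t)) * Complex.exp (t * Complex.I) := by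
      rw [← Complex.exp_add]; congr 1; push_cast; ring
    have e2 : Complex.exp (-(Complex.I * ((l + 1 : ℝ) : ℂ) * t))
        = Complex.exp (-(Complex.I * l * t)) * Complex.exp (-t * Complex.I) := by
      rw [← Complex.exp_add]; congr 1; push_cast; ring
    rw [e1, e2]
    ring
  · exact Continuous.intervalIntegrable (by fun_prop) _ _
  · exact Continuous.intervalIntegrable (by fun_prop) _ _

/-- The three-term recurrence. -/
lemma recur (he : e ≠ 0) (h : ∀ x, PP e a b x = x + 2 * π * r) (x : ℝ) (j : ℤ)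
    (hj : ((j + (b - r) / 2 : ℝ) : ℂ) ≠ 0) :
    (a / 2 : ℂ) * (II (GG e a b x) ((j - 1 : ℤ) + (b - r) / 2)
      + II (GG e a b x) ((j + 1 : ℤ) + (b - r) / 2))
      = (((j + (b - r) / 2 : ℝ) : ℂ) - b + e ^ 2 / (4 * ((j + (b - r) / 2 : ℝ) : ℂ)))
        * II (GG e a b x) (j + (b - r) / 2) := by
  have cU := cont_UU e a b x
  have cG := cont_GG e a b x
  have cG' := cont_GG' e a b x
  have hU0 : UU e a b x (2 * π) = Complex.exp (Complex.I * π * (b - r)) * UU e a b x 0 := by
    rw [UU_period he h, UU_zero, mul_one]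
  have h1 := ibp (hasDerivAt_UU e a b x) cG hU0 j
  have h2 := ibp (hasDerivAt_GG e a b x) cG' (GG_period he h x) j
  set l : ℝ := j + (b - r) / 2 with hl
  have h3 : II (GG' e a b x) l = e ^ 2 / 4 * II (UU e a b x) l
      + Complex.I * b * II (GG e a b x) l
      + Complex.I * a * II (fun t => Complex.cos t * GG e a b x t) l := by
    unfold II
    rw [← intervalIntegral.integral_const_mul, ← intervalIntegral.integral_const_mul,
      ← intervalIntegral.integral_const_mul, ← intervalIntegral.integral_add,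
      ← intervalIntegral.integral_add]
    · apply intervalIntegral.integral_congr
      intro t _
      simp only [GG']
      ring
    all_goals exact Continuous.intervalIntegrable (by fun_prop) _ _
  rw [II_cos cG] at h3
  have e1 : ((j - 1 : ℤ) : ℝ) + (b - r) / 2 = l - 1 := by rw [hl]; push_cast; ring
  have e2 : ((j + 1 : ℤ) : ℝ) + (b - r) / 2 = l + 1 := by rw [hl]; push_cast; ring
  rw [e1, e2]
  generalize II (UU e a b x) l = A at *
  generalize II (GG e a b x) l = B at *
  generalize II (GG' e a b x) l = B' at *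
  generalize II (GG e a b x) (l - 1) = B1 at *
  generalize II (GG e a b x) (l + 1) = B2 at *
  have hI : Complex.I ^ 2 = -1 := Complex.I_sq
  have hA : A = -Complex.I * B / l := by
    rw [eq_div_iff hj]
    rw [h1]
    linear_combination ((l:ℂ) * A) * hI
  rw [h2, hA] at h3
  have h4 : (a / 2 : ℂ) * (B1 + B2) = (l : ℂ) * B - b * B + e ^ 2 / (4 * l) * B := by
    have h5 : Complex.I * (Complex.I * l * B) = Complex.I * (e ^ 2 / 4 * (-Complex.I * B / l)
      + Complex.I * b * B + Complex.I * a * ((B1 + B2) / 2)) := by rw [h3]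
    have h6 : e ^ 2 / 4 * (-Complex.I * B / l) = -Complex.I * (e ^ 2 / (4 * l) * B) := by
      field_simp
    rw [h6] at h5
    linear_combination h5 - ((l:ℂ) * B + (e ^ 2 / (4 * l) * B) - b * B - a * ((B1 + B2) / 2)) * hI
  rw [h4]
  ring

/-- Decay. -/
lemma decay (he : e ≠ 0) (h : ∀ x, PP e a b x = x + 2 * π * r) (x : ℝ) :
    Tendsto (fun n : ℕ => II (GG e a b x) ((n : ℤ) + (b - r) / 2)) atTop (𝓝 0) := by
  have cG := cont_GG e a b x
  have cG' := cont_GG' e a b x
  obtain ⟨C, hC⟩ := (isCompact_Icc (a := (0:ℝ)) (b := 2 * π)).exists_bound_of_continuousOn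
    cG'.continuousOn
  have hb : ∀ l : ℝ, ‖II (GG' e a b x) l‖ ≤ C * (2 * π) := by
    intro l
    unfold II
    have := intervalIntegral.norm_integral_le_of_norm_le_const (a := (0:ℝ)) (b := 2 * π)
      (f := fun t : ℝ => Complex.exp (-(Complex.I * l * t)) * GG' e a b x t) (C := C)
      (fun t ht => by
        rw [norm_mul]
        have : ‖Complex.exp (-(Complex.I * l * t))‖ = 1 := by
          have : -(Complex.I * l * t) = ((-(l * t) : ℝ) : ℂ) * Complex.I := by push_cast; ring
          rw [this, Complex.norm_exp_ofReal_mul_I]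
        rw [this, one_mul]
        rw [uIoc_of_le two_pi_pos.le] at ht
        exact hC t (Ioc_subset_Icc_self ht))
    rwa [sub_zero, abs_of_pos two_pi_pos] at this
  have hlim : Tendsto (fun n : ℕ => C * (2 * π) / ((n:ℝ) + (b - r) / 2)) atTop (𝓝 0) := by
    apply Tendsto.div_atTop tendsto_const_nhds
    exact tendsto_atTop_add_const_right _ _ tendsto_natCast_atTop_atTop
  rw [tendsto_zero_iff_norm_tendsto_zero]
  refine squeeze_zero' (Eventually.of_forall fun n => norm_nonneg _) ?_ hlim
  have hev : ∀ᶠ n : ℕ in atTop, 0 < (n:ℝ) + (b - r) / 2 :=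
    (tendsto_atTop_add_const_right _ ((b - r) / 2) tendsto_natCast_atTop_atTop).eventually_gt_atTop 0
  filter_upwards [hev] with n hn
  have h2 := ibp (hasDerivAt_GG e a b x) cG' (GG_period he h x) (n : ℤ)
  have h3 := hb (((n : ℤ) : ℝ) + (b - r) / 2)
  rw [h2, norm_mul, norm_mul, Complex.norm_I, one_mul, Complex.norm_real] at h3
  have e1 : (((n : ℤ) : ℝ) + (b - r) / 2) = (n:ℝ) + (b - r) / 2 := by push_cast; rfl
  rw [e1, Real.norm_of_nonneg hn.le] at h3
  rw [e1, le_div_iff₀ hn, mul_comm]
  exact h3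

/-- If the period map is trivial and `a ≠ 0`, then `(b - r)/2` is an integer. -/
lemma integrality (he : e ≠ 0) (ha : a ≠ 0) (h : ∀ x, PP e a b x = x + 2 * π * r)
    (hκ : ∀ j : ℤ, (j:ℝ) + (b - r) / 2 ≠ 0) : False := by
  have hκc : ∀ j : ℤ, ((j + (b - r) / 2 : ℝ) : ℂ) ≠ 0 := fun j => by exact_mod_cast hκ j
  set A : ℤ → ℂ := fun j => II (GG e a b 0) (j + (b - r) / 2) with hA
  set B : ℤ → ℂ := fun j => II (GG e a b π) (j + (b - r) / 2) with hB
  set q : ℤ → ℂ := fun j => ((j + (b - r) / 2 : ℝ) : ℂ) - b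
    + e ^ 2 / (4 * ((j + (b - r) / 2 : ℝ) : ℂ)) with hq
  have haC : (a : ℂ) ≠ 0 := by exact_mod_cast ha
  have rA : ∀ j, (a / 2 : ℂ) * (A (j - 1) + A (j + 1)) = q j * A j := fun j =>
    recur he h 0 j (hκc j)
  have rB : ∀ j, (a / 2 : ℂ) * (B (j - 1) + B (j + 1)) = q j * B j := fun j =>
    recur he h π j (hκc j)
  have dA : Tendsto (fun n : ℕ => A n) atTop (𝓝 0) := decay he h 0
  have dB : Tendsto (fun n : ℕ => B n) atTop (𝓝 0) := decay he h π
  -- Casoratian
  set C : ℤ → ℂ := fun j => A (j + 1) * B j - A j * B (j + 1) with hC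
  have hCstep : ∀ j, C j = C (j - 1) := by
    intro j
    simp only [hC]
    have e1 : j - 1 + 1 = j := by ring
    rw [e1]
    have h1 : A (j + 1) = 2 / a * (q j * A j) - A (j - 1) := by
      rw [← rA j]; field_simp; ring
    have h2 : B (j + 1) = 2 / a * (q j * B j) - B (j - 1) := by
      rw [← rB j]; field_simp; ring
    rw [h1, h2]
    ring
  have hCconst : ∀ j : ℤ, C j = C 0 := by
    intro j
    induction j using Int.induction_on with
    | zero => rfl
    | succ i ih => rw [hCstep, add_sub_cancel_right, ih]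
    | pred i ih => rw [← hCstep, ih]
  have hC0 : C 0 = 0 := by
    have h1 : Tendsto (fun n : ℕ => C n) atTop (𝓝 0) := by
      have dA1 : Tendsto (fun n : ℕ => A ((n:ℤ) + 1)) atTop (𝓝 0) := by
        have := (tendsto_add_atTop_iff_nat (f := fun n : ℕ => A n) 1).2 dA
        exact_mod_cast this
      have dB1 : Tendsto (fun n : ℕ => B ((n:ℤ) + 1)) atTop (𝓝 0) := by
        have := (tendsto_add_atTop_iff_nat (f := fun n : ℕ => B n) 1).2 dB
        exact_mod_cast this
      have := (dA1.mul dB).sub (dA.mul dB1)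
      simpa using this
    have h2 : (fun n : ℕ => C n) = fun _ => C 0 := by ext n; exact hCconst n
    rw [h2] at h1
    exact tendsto_nhds_unique tendsto_const_nhds h1
  have hCz : ∀ j, A (j + 1) * B j = A j * B (j + 1) := by
    intro j
    have : C j = 0 := by rw [hCconst, hC0]
    exact sub_eq_zero.1 this
  -- a generic uniqueness statement
  have huniq : ∀ c d : ℂ, (∀ j, c * A j + d * B j = 0) →
      ∀ t ∈ Ico 0 (2 * π), c * GG e a b 0 t + d * GG e a b π t = 0 := by
    intro c d hcd t ht
    have cA := cont_GG e a b 0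
    have cB := cont_GG e a b π
    let W : ℝ → ℂ := fun t => Complex.exp (-(Complex.I * (((b - r) / 2 : ℝ) : ℂ) * t)) *
      (c * GG e a b 0 t + d * GG e a b π t)
    have hWc : Continuous W := by simp only [W]; fun_prop
    have hWp : W 0 = W (2 * π) := by
      simp only [W]
      rw [GG_period he h, GG_period he h]
      have e1 : Complex.exp (-(Complex.I * (((b - r) / 2 : ℝ) : ℂ) * ((2 * π : ℝ) : ℂ))) *
          Complex.exp (Complex.I * π * (b - r)) = 1 := by
        rw [← Complex.exp_add]
        have : -(Complex.I * (((b - r) / 2 : ℝ) : ℂ) * ((2 * π : ℝ) : ℂ)) +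
          Complex.I * π * (b - r) = 0 := by push_cast; ring
        rw [this, Complex.exp_zero]
      have e2 : Complex.exp (-(Complex.I * (((b - r) / 2 : ℝ) : ℂ) * ((0 : ℝ) : ℂ))) = 1 := by
        simp
      rw [e2]
      linear_combination (-(c * GG e a b 0 0 + d * GG e a b π 0)) * e1
    have hWj : ∀ j : ℤ, ∫ t in (0:ℝ)..(2 * π), Complex.exp (-(Complex.I * j * t)) * W t = 0 := by
      intro j
      rw [← hcd j]
      simp only [hA, hB, II]
      rw [← intervalIntegral.integral_const_mul, ← intervalIntegral.integral_const_mul,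
        ← intervalIntegral.integral_add]
      · apply intervalIntegral.integral_congr
        intro t _
        simp only [W]
        have e1 : Complex.exp (-(Complex.I * ((j + (b - r) / 2 : ℝ) : ℂ) * t))
            = Complex.exp (-(Complex.I * j * t)) *
              Complex.exp (-(Complex.I * (((b - r) / 2 : ℝ) : ℂ) * t)) := by
          rw [← Complex.exp_add]; congr 1; push_cast; ring
        rw [e1]
        ring
      all_goals exact Continuous.intervalIntegrable (by fun_prop) _ _
    have h1 := fourier_unique hWc hWp hWj t ht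
    simp only [W] at h1
    rcases mul_eq_zero.1 h1 with h2 | h2
    · exact absurd h2 (Complex.exp_ne_zero _)
    · exact h2
  have heC : (e : ℂ) ≠ 0 := by exact_mod_cast he
  have hG0 : GG e a b 0 0 = e / 2 := by
    unfold GG; rw [UU_zero, sol_zero]; simp
  have hGπ : GG e a b π 0 = -(e / 2) := by
    unfold GG; rw [UU_zero, sol_zero, mul_comm Complex.I, Complex.exp_pi_mul_I]; ring
  -- A is not identically zero
  have hAne : ∃ j, A j ≠ 0 := by
    by_contra hcon
    push Not at hcon
    have := huniq 1 0 (fun j => by rw [hcon j]; simp) 0 ⟨le_rfl, two_pi_pos⟩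
    rw [hG0] at this
    simp at this
    exact he this
  obtain ⟨j0, hj0⟩ := hAne
  set s := B j0 / A j0 with hs
  set H : ℤ → ℂ := fun j => -s * A j + 1 * B j with hH
  have rH : ∀ j, (a / 2 : ℂ) * (H (j - 1) + H (j + 1)) = q j * H j := by
    intro j
    simp only [hH]
    linear_combination (-s) * rA j + rB j
  have hH0 : H j0 = 0 := by simp only [hH, hs]; field_simp; ring
  have hH1 : H (j0 + 1) = 0 := by
    simp only [hH, hs]
    have := hCz j0
    field_simp
    linear_combination (-1 : ℂ) * this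
  have hstep : ∀ j, H (j + 1) = 2 / a * (q j * H j) - H (j - 1) := by
    intro j; rw [← rH j]; field_simp; ring
  have hback : ∀ j, H (j - 1) = 2 / a * (q j * H j) - H (j + 1) := by
    intro j; rw [← rH j]; field_simp; ring
  have hup : ∀ n : ℕ, H (j0 + n) = 0 ∧ H (j0 + n + 1) = 0 := by
    intro n
    induction n with
    | zero => exact ⟨by simpa using hH0, by simpa using hH1⟩
    | succ n ih =>
      have e1 : j0 + ((n + 1 : ℕ) : ℤ) = j0 + n + 1 := by push_cast; ring
      rw [e1]
      refine ⟨ih.2, ?_⟩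
      rw [hstep, ih.2]
      have e2 : j0 + (n:ℤ) + 1 - 1 = j0 + n := by ring
      rw [e2, ih.1]; ring
  have hdown : ∀ n : ℕ, H (j0 - n) = 0 ∧ H (j0 - n + 1) = 0 := by
    intro n
    induction n with
    | zero => exact ⟨by simpa using hH0, by simpa using hH1⟩
    | succ n ih =>
      have e1 : j0 - ((n + 1 : ℕ) : ℤ) = j0 - n - 1 := by push_cast; ring
      rw [e1, sub_add_cancel]
      refine ⟨?_, ih.1⟩
      rw [hback, ih.1, ih.2]; ring
  have hHz : ∀ j, H j = 0 := by
    intro j
    rcases le_total j0 j with hle | hle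
    · obtain ⟨n, hn⟩ := Int.eq_ofNat_of_zero_le (sub_nonneg.2 hle)
      have : j = j0 + n := by linarith
      rw [this]; exact (hup n).1
    · obtain ⟨n, hn⟩ := Int.eq_ofNat_of_zero_le (sub_nonneg.2 hle)
      have : j = j0 - n := by linarith
      rw [this]; exact (hdown n).1
  have hGG := huniq (-s) 1 hHz
  have hs1 : s = -1 := by
    have := hGG 0 ⟨le_rfl, two_pi_pos⟩
    rw [hG0, hGπ] at this
    have h2 : (e : ℂ) / 2 * (s + 1) = 0 := by linear_combination (-1 : ℂ) * this
    rcases mul_eq_zero.1 h2 with h3 | h3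
    · exfalso; apply heC; linear_combination 2 * h3
    · linear_combination h3
  have hsum : ∀ t ∈ Ico 0 (2 * π), GG e a b 0 t + GG e a b π t = 0 := by
    intro t ht
    have := hGG t ht
    rw [hs1] at this
    linear_combination this
  -- `U_A + U_B = 2`
  have hUsum : UU e a b 0 π + UU e a b π π = 2 := by
    have hc := constant_of_has_deriv_right_zero (f := fun t => UU e a b 0 t + UU e a b π t)
      (a := 0) (b := π)
      (((cont_UU e a b 0).add (cont_UU e a b π)).continuousOn)
      (fun t ht => by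
        have h1 := ((hasDerivAt_UU e a b 0 t).add (hasDerivAt_UU e a b π t)).hasDerivWithinAt
          (s := Ici t)
        rw [hsum t ⟨ht.1, by linarith [ht.2, pi_pos]⟩] at h1
        exact h1) π ⟨pi_pos.le, le_rfl⟩
    simp only [UU_zero] at hc
    rw [hc]; norm_num
  -- the derivative of `G_A + G_B`
  have hGsum : GG' e a b 0 π + GG' e a b π π = 0 := by
    have h1 := (hasDerivAt_GG e a b 0 π).add (hasDerivAt_GG e a b π π)
    have hev : (GG e a b 0 + GG e a b π) =ᶠ[𝓝 π] fun _ => 0 := by
      filter_upwards [Ioo_mem_nhds pi_pos (by linarith [pi_pos] : π < 2 * π)] with t ht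
      exact hsum t ⟨ht.1.le, ht.2⟩
    have h2 := h1.congr_of_eventuallyEq hev.symm
    exact h2.unique (hasDerivAt_const π (0:ℂ))
  have hGs := hsum π ⟨pi_pos.le, by linarith [pi_pos]⟩
  unfold GG' at hGsum
  have : (e : ℂ) ^ 2 / 4 * 2 = 0 := by
    rw [← hUsum]
    linear_combination hGsum - (Complex.I * (b + a * Complex.cos π)) * hGs
  have h4 : (e:ℂ) ^ 2 = 0 := by linear_combination 2 * this
  exact heC (pow_eq_zero_iff (two_ne_zero) |>.1 h4)

/-- At an adjacency with `e < 2` one has `b = r`. -/
lemma b_eq (he : 0 < e) (he2 : e < 2) (ha : a ≠ 0) (h : ∀ x, PP e a b x = x + 2 * π * r) :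
    b = r := by
  by_contra hne
  have h1 := b_near he h
  refine integrality he.ne' ha h fun j hj => ?_
  have h2 : b - r ≠ 0 := sub_ne_zero.2 hne
  have h3 : |(j:ℝ)| < 1 := by
    have : (j:ℝ) = -((b - r) / 2) := by linarith
    rw [this, abs_neg, abs_div, abs_two]
    linarith
  have h4 : j = 0 := by
    have h5 : |j| < 1 := by exact_mod_cast h3
    exact Int.abs_lt_one_iff.1 h5
  rw [h4] at hj
  apply h2
  push_cast at hj
  linarith

end

end Pool.Agent.V1185.Jos
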