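import Pool.Agent.V1185.Jos.Bess

open Set Real Filter Topology MeasureTheory

namespace Pool.Agent.V1185.Jos

lemma alt_le {u : ℕ → ℝ} {l : ℝ} (h : HasSum (fun p => (-1) ^ p * u p) l) (K : ℕ)
    (hu : ∀ p, 2 * K + 1 ≤ p → u (p + 1) ≤ u p) :
    l ≤ ∑ p ∈ Finset.range (2 * K + 1), (-1) ^ p * u p := by
  have ht := h.tendsto_sum_nat
  have ht2 : Tendsto (fun n : ℕ => ∑ p ∈ Finset.range (2 * (K + n) + 1), (-1) ^ p * u p) atTop
      (𝓝 l) :=
    ht.comp (tendsto_atTop_mono (fun n => by omega : ∀ n : ℕ, n ≤ 2 * (K + n) + 1) tendsto_id)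
  have hb : ∀ n : ℕ, ∑ p ∈ Finset.range (2 * (K + n) + 1), (-1) ^ p * u p ≤
      ∑ p ∈ Finset.range (2 * K + 1), (-1) ^ p * u p := by
    intro n
    induction n with
    | zero => simp
    | succ n ih =>
      have e1 : 2 * (K + (n + 1)) + 1 = (2 * (K + n) + 1) + 1 + 1 := by ring
      rw [e1, Finset.sum_range_succ, Finset.sum_range_succ]
      have h1 : (-1:ℝ) ^ (2 * (K + n) + 1) = -1 := by rw [pow_succ, pow_mul]; simp
      have h2 : (-1:ℝ) ^ (2 * (K + n) + 1 + 1) = 1 := by rw [pow_succ, h1]; norm_num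
      rw [h1, h2]
      have := hu (2 * (K + n) + 1) (by omega)
      linarith
  exact le_of_tendsto ht2 (Eventually.of_forall hb)

lemma le_alt {u : ℕ → ℝ} {l : ℝ} (h : HasSum (fun p => (-1) ^ p * u p) l) (K : ℕ)
    (hu : ∀ p, 2 * K ≤ p → u (p + 1) ≤ u p) :
    ∑ p ∈ Finset.range (2 * K), (-1) ^ p * u p ≤ l := by
  have ht := h.tendsto_sum_nat
  have ht2 : Tendsto (fun n : ℕ => ∑ p ∈ Finset.range (2 * (K + n)), (-1) ^ p * u p) atTop
      (𝓝 l) :=
    ht.comp (tendsto_atTop_mono (fun n => by omega : ∀ n : ℕ, n ≤ 2 * (K + n)) tendsto_id)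
  have hb : ∀ n : ℕ, ∑ p ∈ Finset.range (2 * K), (-1) ^ p * u p ≤
      ∑ p ∈ Finset.range (2 * (K + n)), (-1) ^ p * u p := by
    intro n
    induction n with
    | zero => simp
    | succ n ih =>
      have e1 : 2 * (K + (n + 1)) = (2 * (K + n)) + 1 + 1 := by ring
      rw [e1, Finset.sum_range_succ, Finset.sum_range_succ]
      have h1 : (-1:ℝ) ^ (2 * (K + n)) = 1 := by rw [pow_mul]; simp
      have h2 : (-1:ℝ) ^ (2 * (K + n) + 1) = -1 := by rw [pow_succ, h1]; norm_num
      rw [h1, h2]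
      have := hu (2 * (K + n)) (by omega)
      linarith
  exact ge_of_tendsto ht2 (Eventually.of_forall hb)

/-- Terms of the Bessel series. -/
noncomputable def uu (r : ℕ) (s : ℝ) (p : ℕ) : ℝ := s ^ p / (p.factorial * (p + r).factorial)

lemma uu_anti {r : ℕ} {s : ℝ} (hs0 : 0 ≤ s) {p : ℕ} (hs : s ≤ (p + 1) * (p + 1 + r)) :
    uu r s (p + 1) ≤ uu r s p := by
  unfold uu
  have e1 : p + 1 + r = (p + r) + 1 := by ring
  rw [e1, Nat.factorial_succ, Nat.factorial_succ, pow_succ]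
  have h1 : (0:ℝ) < p.factorial := by exact_mod_cast Nat.factorial_pos _
  have h2 : (0:ℝ) < (p + r).factorial := by exact_mod_cast Nat.factorial_pos _
  push_cast
  rw [div_le_div_iff₀ (by positivity) (by positivity)]
  have h3 : (0:ℝ) ≤ s ^ p * (p.factorial * (p + r).factorial) := by positivity
  calc s ^ p * s * (p.factorial * (p + r).factorial)
      = (s ^ p * (p.factorial * (p + r).factorial)) * s := by ring
    _ ≤ (s ^ p * (p.factorial * (p + r).factorial)) * ((p + 1) * (p + 1 + r)) := by gcongr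
    _ = s ^ p * ((p + 1) * p.factorial * ((p + r + 1) * (p + r).factorial)) := by ring

lemma series {r : ℕ} {a : ℝ} (ha : 0 < a) : ∃ J : ℝ, HasSum (fun p => (-1) ^ p * uu r (a ^ 2 / 4) p) J ∧
    (-1) ^ r * CC r a = (2 * π * (a / 2) ^ r) * J := by
  have h := CC_hasSum r a
  have hc : 2 * π * (-1) ^ r * (a / 2) ^ r ≠ 0 := by
    have := pi_pos
    positivity
  refine ⟨CC r a / (2 * π * (-1) ^ r * (a / 2) ^ r), ?_, ?_⟩
  · rw [← hasSum_mul_left_iff hc, mul_div_cancel₀ _ hc]
    exact h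
  · rw [eq_comm, mul_div_assoc', div_eq_iff hc]
    have : ((-1:ℝ) ^ r) * ((-1) ^ r) = 1 := by rw [← mul_pow]; norm_num
    linear_combination (-(2 * π * (a / 2) ^ r * CC r a)) * this

lemma sign_pos {r : ℕ} {a : ℝ} (ha : 0 < a) (K : ℕ)
    (hs : a ^ 2 / 4 ≤ (2 * K + 1) * (2 * K + 1 + r))
    (hp : 0 < ∑ p ∈ Finset.range (2 * K), (-1) ^ p * uu r (a ^ 2 / 4) p) :
    0 < (-1) ^ r * CC r a := by
  obtain ⟨J, hJ, hJ2⟩ := series (r := r) ha
  have h1 := le_alt hJ K (fun p hp => by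
    apply uu_anti (by positivity)
    have h2 : ((2 * K : ℕ) : ℝ) ≤ p := by exact_mod_cast hp
    push_cast at h2
    refine hs.trans ?_
    gcongr)
  rw [hJ2]
  have := pi_pos
  have h3 : 0 < J := lt_of_lt_of_le hp h1
  positivity

lemma sign_neg {r : ℕ} {a : ℝ} (ha : 0 < a) (K : ℕ)
    (hs : a ^ 2 / 4 ≤ (2 * K + 2) * (2 * K + 2 + r))
    (hp : ∑ p ∈ Finset.range (2 * K + 1), (-1) ^ p * uu r (a ^ 2 / 4) p < 0) :
    (-1) ^ r * CC r a < 0 := by
  obtain ⟨J, hJ, hJ2⟩ := series (r := r) ha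
  have h1 := alt_le hJ K (fun p hp => by
    apply uu_anti (by positivity)
    have h2 : ((2 * K + 1 : ℕ) : ℝ) ≤ p := by exact_mod_cast hp
    push_cast at h2
    refine hs.trans ?_
    have e1 : (2 * (K:ℝ) + 2) ≤ p + 1 := by linarith
    gcongr)
  rw [hJ2]
  have := pi_pos
  have h3 : J < 0 := lt_of_le_of_lt h1 hp
  have h4 : 0 < 2 * π * (a / 2) ^ r := by positivity
  exact mul_neg_of_pos_of_neg h4 h3

lemma s11 : CC 1 1 < 0 := by
  have := sign_pos (r := 1) (a := 1) one_pos 1 (by norm_num)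
    (by norm_num [Finset.sum_range_succ, uu, Nat.factorial])
  push_cast at this
  linarith

lemma s12 : 0 < CC 1 (384 / 100) := by
  have := sign_neg (r := 1) (a := 384 / 100) (by norm_num) 3 (by norm_num)
    (by norm_num [Finset.sum_range_succ, uu, Nat.factorial])
  push_cast at this
  linarith

lemma s31 : CC 3 1 < 0 := by
  have := sign_pos (r := 3) (a := 1) one_pos 1 (by norm_num)
    (by norm_num [Finset.sum_range_succ, uu, Nat.factorial])
  push_cast at this
  linarith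

lemma s32 : 0 < CC 3 (64 / 10) := by
  have := sign_neg (r := 3) (a := 64 / 10) (by norm_num) 4 (by norm_num)
    (by norm_num [Finset.sum_range_succ, uu, Nat.factorial])
  push_cast at this
  linarith

lemma s22 : CC 2 (52 / 10) < 0 := by
  have := sign_neg (r := 2) (a := 52 / 10) (by norm_num) 3 (by norm_num)
    (by norm_num [Finset.sum_range_succ, uu, Nat.factorial])
  push_cast at this
  linarith

lemma s21 {a : ℝ} (ha : 0 < a) (ha2 : a ≤ 513 / 100) : 0 < CC 2 a := by
  have := sign_pos (r := 2) (a := a) ha 4 (by norm_num; nlinarith) (by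
    have hv : 0 ≤ 329 / 50 - a ^ 2 / 4 := by nlinarith
    generalize hs : 329 / 50 - a ^ 2 / 4 = v at hv
    have hs' : a ^ 2 / 4 = 329 / 50 - v := by linarith
    rw [hs']
    have e1 : ∑ p ∈ Finset.range (2 * 4), (-1) ^ p * uu 2 (329 / 50 - v) p
        = 7356222748344709 / 29160000000000000000 + 11788596423355603 / 583200000000000000 * v
          + 17754999249943 / 3888000000000000 * v ^ 2 + 19652621983 / 46656000000000 * v ^ 3
          + 19027723 / 933120000000 * v ^ 4 + 172141 / 217728000000 * v ^ 5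
          + 121 / 13063680000 * v ^ 6 + 1 / 1828915200 * v ^ 7 := by
      simp only [Finset.sum_range_succ, Finset.sum_range_zero, uu, Nat.factorial]
      push_cast
      ring
    rw [e1]
    positivity)
  push_cast at this
  linarith

end Pool.Agent.V1185.Jos
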