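import Pool.Agent.V1185.Jos.Exist
import Pool.Agent.V1185.Jos.Sign

open Set Real Filter Topology MeasureTheory

namespace Pool.Agent.V1185.Jos

/-- No trivial parameter for small positive `a`. -/
lemma small_a {r : ℤ} (hr : r ≠ 0) : ∃ a0 : ℝ, 0 < a0 ∧ ∃ e0 : ℝ, 0 < e0 ∧ ∀ e, 0 < e → e < e0 →
    ∀ a, 0 < a → a ≤ a0 → ¬ ∀ x, PP e a r x = x + 2 * π * r := by
  have hr' : (r : ℝ) ≠ 0 := by exact_mod_cast hr
  have hc : Continuous (fun a => |DD r a|) := (DD_cont r).abs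
  have h0 : 0 < |DD r 0| := by
    rw [DD_zero hr, abs_neg, abs_pos]
    have := pi_pos
    positivity
  set m := |DD r 0| with hm
  have hev : ∀ᶠ a in 𝓝 (0:ℝ), m / 2 < |DD r a| :=
    hc.continuousAt.eventually_const_lt (by linarith)
  obtain ⟨δ, hδ, hball⟩ := Metric.eventually_nhds_iff.1 hev
  refine ⟨δ / 2, by positivity, m / (32 * π ^ 3), by positivity, fun e he he2 a ha ha2 h => ?_⟩
  have h1 := hball (y := a) (by rw [dist_zero_right, Real.norm_of_nonneg ha.le]; linarith)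
  have h2 := triv_DD he h
  have h3 : 16 * π ^ 3 * e < m / 2 := by
    rw [lt_div_iff₀ (by positivity)] at he2
    linarith
  linarith

lemma no_small {r : ℤ} (hr : r ≠ 0) {R : ℝ} (hR : ∀ a, 0 < a → a ≤ R → 0 < CC r a) :
    ∃ e0 : ℝ, 0 < e0 ∧ ∀ e, 0 < e → e < e0 → ∀ a, 0 < a → a ≤ R →
      ¬ ∀ x, PP e a r x = x + 2 * π * r := by
  obtain ⟨a0, ha0, e1, he1, h1⟩ := small_a hr
  by_cases hle : a0 ≤ R
  · obtain ⟨am, ham, hmin⟩ := (isCompact_Icc (a := a0) (b := R)).exists_isMinOn ⟨a0, le_rfl, hle⟩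
      (CC_cont r).continuousOn
    have hpos := hR am (by linarith [ham.1]) ham.2
    refine ⟨min e1 (CC r am / (4 * π ^ 2)), by have := pi_pos; positivity, fun e he he2 a ha ha2 h => ?_⟩
    rcases le_total a a0 with h3 | h3
    · exact h1 e he (he2.trans_le (min_le_left _ _)) a ha h3 h
    · have h4 := triv_CC he h
      have h5 : CC r am ≤ CC r a := hmin ⟨h3, ha2⟩
      have h6 := he2.trans_le (min_le_right _ _)
      rw [lt_div_iff₀ (by positivity)] at h6
      have := (abs_le.1 h4).2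
      linarith
  · push Not at hle
    exact ⟨e1, he1, fun e he he2 a ha ha2 h => h1 e he he2 a ha (ha2.trans hle.le) h⟩

lemma first_adj {r : ℤ} (hr : r ≠ 0) {L R : ℝ} (hL : 0 < L) (hLR : L ≤ R)
    (hs : (CC r L < 0 ∧ 0 < CC r R) ∨ (0 < CC r L ∧ CC r R < 0)) :
    ∃ e0 : ℝ, 0 < e0 ∧ ∀ e, 0 < e → e < e0 → ∃ a, 0 < a ∧ a ≤ R ∧
      (∀ x, PP e a r x = x + 2 * π * r) ∧
      ∀ a', 0 < a' → a' < a → ¬ ∀ x, PP e a' r x = x + 2 * π * r := by
  obtain ⟨a0, ha0, e1, he1, h1⟩ := small_a hr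
  have hLne : CC r L ≠ 0 := by rcases hs with h | h; exacts [h.1.ne, h.1.ne']
  have hRne : CC r R ≠ 0 := by rcases hs with h | h; exacts [h.2.ne', h.2.ne]
  have hp := pi_pos
  refine ⟨min (min e1 2) (min (|CC r L| / (4 * π ^ 2)) (|CC r R| / (4 * π ^ 2))), by positivity,
    fun e he he2 => ?_⟩
  have k1 : e < e1 := he2.trans_le ((min_le_left _ _).trans (min_le_left _ _))
  have k2 : e < 2 := he2.trans_le ((min_le_left _ _).trans (min_le_right _ _))
  have k3 : 4 * π ^ 2 * e < |CC r L| := by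
    have := he2.trans_le ((min_le_right _ _).trans (min_le_left _ _))
    rw [lt_div_iff₀ (by positivity)] at this
    linarith
  have k4 : 4 * π ^ 2 * e < |CC r R| := by
    have := he2.trans_le ((min_le_right _ _).trans (min_le_right _ _))
    rw [lt_div_iff₀ (by positivity)] at this
    linarith
  have hs' : (4 * π ^ 2 * e < CC r L ∧ CC r R < -(4 * π ^ 2 * e)) ∨
      (CC r L < -(4 * π ^ 2 * e) ∧ 4 * π ^ 2 * e < CC r R) := by
    rcases hs with ⟨h2, h3⟩ | ⟨h2, h3⟩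
    · right
      rw [abs_of_neg h2] at k3
      rw [abs_of_pos h3] at k4
      exact ⟨by linarith, k4⟩
    · left
      rw [abs_of_pos h2] at k3
      rw [abs_of_neg h3] at k4
      exact ⟨k3, by linarith⟩
  obtain ⟨a, ha, b, hb⟩ := exists_triv he hLR hs'
  have hapos : 0 < a := by linarith [ha.1]
  have hbr : b = r := b_eq he k2 hapos.ne' hb
  rw [hbr] at hb
  let T : Set ℝ := {a | ∀ x, PP e a r x = x + 2 * π * r} ∩ Icc a0 R
  have hTc : IsCompact T := by
    apply isCompact_Icc.inter_left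
    rw [ofPred_forall]
    apply isClosed_iInter
    intro x
    exact isClosed_eq ((PP_continuous e).comp
      (by fun_prop : Continuous fun a : ℝ => ((a, (r:ℝ), x) : ℝ × ℝ × ℝ))) continuous_const
  have haT : a ∈ T := by
    refine ⟨hb, ?_, ha.2⟩
    by_contra hcon
    push Not at hcon
    exact h1 e he k1 a hapos hcon.le hb
  obtain ⟨am, ham, hmin⟩ := hTc.exists_isLeast ⟨a, haT⟩
  refine ⟨am, by linarith [ham.2.1], ham.2.2, ham.1, fun a' ha' hlt htriv => ?_⟩
  have ha'0 : a0 ≤ a' := by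
    by_contra hcon
    push Not at hcon
    exact h1 e he k1 a' ha' hcon.le htriv
  have := hmin ⟨htriv, ha'0, by linarith [ham.2.2]⟩
  linarith

/-- The three first trivial parameters. -/
lemma three : ∃ e0 : ℝ, 0 < e0 ∧ e0 ≤ 2 ∧ ∀ e, 0 < e → e < e0 → ∃ a : ℤ → ℝ,
    (∀ r : ℤ, r = 1 ∨ r = 2 ∨ r = 3 → 0 < a r ∧ (∀ x, PP e (a r) r x = x + 2 * π * r) ∧
      ∀ a', 0 < a' → a' < a r → ¬ ∀ x, PP e a' r x = x + 2 * π * r) ∧
    a 1 + a 3 < 2 * a 2 := by
  obtain ⟨e1, he1, h1⟩ := first_adj (r := 1) one_ne_zero (L := 1) (R := 384 / 100) one_pos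
    (by norm_num) (Or.inl ⟨by exact_mod_cast s11, by exact_mod_cast s12⟩)
  obtain ⟨e2, he2, h2⟩ := first_adj (r := 2) two_ne_zero (L := 1) (R := 52 / 10) one_pos
    (by norm_num) (Or.inr ⟨s21 one_pos (by norm_num), s22⟩)
  obtain ⟨e3, he3, h3⟩ := first_adj (r := 3) three_ne_zero (L := 1) (R := 64 / 10) one_pos
    (by norm_num) (Or.inl ⟨s31, s32⟩)
  obtain ⟨e4, he4, h4⟩ := no_small (r := 2) two_ne_zero (R := 513 / 100) (fun a ha ha2 => s21 ha ha2)
  refine ⟨min (min e1 e2) (min (min e3 e4) 2), by positivity,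
    (min_le_right _ _).trans (min_le_right _ _), fun e he hlt => ?_⟩
  have k1 : e < e1 := hlt.trans_le ((min_le_left _ _).trans (min_le_left _ _))
  have k2 : e < e2 := hlt.trans_le ((min_le_left _ _).trans (min_le_right _ _))
  have k3 : e < e3 := hlt.trans_le ((min_le_right _ _).trans ((min_le_left _ _).trans (min_le_left _ _)))
  have k4 : e < e4 := hlt.trans_le ((min_le_right _ _).trans ((min_le_left _ _).trans (min_le_right _ _)))
  obtain ⟨a1, p1, q1, t1, m1⟩ := h1 e he k1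
  obtain ⟨a2, p2, q2, t2, m2⟩ := h2 e he k2
  obtain ⟨a3, p3, q3, t3, m3⟩ := h3 e he k3
  have hlow : 513 / 100 < a2 := by
    by_contra hcon
    push Not at hcon
    exact h4 e he k4 a2 p2 hcon t2
  refine ⟨fun r => if r = 1 then a1 else if r = 2 then a2 else a3, ?_, ?_⟩
  · rintro r (rfl | rfl | rfl)
    · exact ⟨p1, t1, m1⟩
    · exact ⟨p2, t2, m2⟩
    · exact ⟨p3, t3, m3⟩
  · show a1 + a3 < 2 * a2
    linarith

end Pool.Agent.V1185.Jos
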