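import Mathlib
import Pool.Agent.H839R2.Ode.Flow

open Set Real Filter Topology MeasureTheory

namespace Pool.Agent.V1185.Jos

/-- Solutions of `φ' = b + a cos t - e sin φ`. -/
def IsSol (e a b : ℝ) (φ : ℝ → ℝ) : Prop :=
  ∀ t, HasDerivAt φ (b + a * cos t - e * sin (φ t)) t

lemma sin_lip (x y : ℝ) : |sin x - sin y| ≤ |x - y| := by
  rw [sin_sub_sin, abs_mul, abs_mul]
  have h1 : |sin ((x - y) / 2)| ≤ |(x - y) / 2| := abs_sin_le_abs
  have h2 := abs_cos_le_one ((x + y) / 2)
  rw [abs_div, abs_two] at h1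
  rw [abs_two]
  nlinarith [abs_nonneg (sin ((x - y) / 2)), abs_nonneg (cos ((x + y) / 2)), abs_nonneg (x - y)]

lemma cos_lip (x y : ℝ) : |cos x - cos y| ≤ |x - y| := by
  rw [cos_sub_cos, abs_mul, abs_mul, abs_neg, abs_two]
  have h1 : |sin ((x - y) / 2)| ≤ |(x - y) / 2| := abs_sin_le_abs
  have h2 := abs_sin_le_one ((x + y) / 2)
  rw [abs_div, abs_two] at h1
  nlinarith [abs_nonneg (sin ((x - y) / 2)), abs_nonneg (sin ((x + y) / 2)), abs_nonneg (x - y)]

lemma exists_sol (e a b x : ℝ) : ∃ φ : ℝ → ℝ, φ 0 = x ∧ IsSol e a b φ := by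
  let W : ℝ × ℝ → ℝ × ℝ := fun p => (1, b + a * cos p.1 - e * sin p.2)
  have hK : LipschitzWith (Real.toNNReal (|a| + |e|)) W := by
    apply LipschitzWith.of_dist_le_mul
    intro p q
    rw [Real.coe_toNNReal _ (by positivity), Prod.dist_eq]
    simp only [W, dist_self, Real.dist_eq]
    have h1 : |p.1 - q.1| ≤ dist p q := by
      rw [Prod.dist_eq, ← Real.dist_eq]; exact le_max_left _ _
    have h2 : |p.2 - q.2| ≤ dist p q := by
      rw [Prod.dist_eq, ← Real.dist_eq]; exact le_max_right _ _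
    have h3 := cos_lip p.1 q.1
    have h4 := sin_lip p.2 q.2
    apply max_le (by positivity)
    have e1 : b + a * cos p.1 - e * sin p.2 - (b + a * cos q.1 - e * sin q.2)
        = a * (cos p.1 - cos q.1) - e * (sin p.2 - sin q.2) := by ring
    rw [e1]
    calc |a * (cos p.1 - cos q.1) - e * (sin p.2 - sin q.2)|
        ≤ |a * (cos p.1 - cos q.1)| + |e * (sin p.2 - sin q.2)| := abs_sub _ _
      _ = |a| * |cos p.1 - cos q.1| + |e| * |sin p.2 - sin q.2| := by rw [abs_mul, abs_mul]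
      _ ≤ |a| * dist p q + |e| * dist p q :=
          add_le_add (mul_le_mul_of_nonneg_left (h3.trans h1) (abs_nonneg _))
            (mul_le_mul_of_nonneg_left (h4.trans h2) (abs_nonneg _))
      _ = (|a| + |e|) * dist p q := by ring
  have hL : ∀ p, ‖W p‖ ≤ (Real.toNNReal (1 + |b| + |a| + |e|)) := by
    intro p
    rw [Real.coe_toNNReal _ (by positivity), Prod.norm_def]
    simp only [W, norm_one, Real.norm_eq_abs]
    apply max_le
    · have := abs_nonneg b; have := abs_nonneg a; have := abs_nonneg e; linarith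
    · have h1 := abs_cos_le_one p.1
      have h2 := abs_sin_le_one p.2
      calc |b + a * cos p.1 - e * sin p.2| ≤ |b + a * cos p.1| + |e * sin p.2| := abs_sub _ _
        _ ≤ |b| + |a * cos p.1| + |e * sin p.2| := by
            have := abs_add_le b (a * cos p.1); linarith
        _ = |b| + |a| * |cos p.1| + |e| * |sin p.2| := by rw [abs_mul, abs_mul]
        _ ≤ _ := by nlinarith [abs_nonneg a, abs_nonneg e, abs_nonneg b]
  obtain ⟨α, h0, h1⟩ := Pool.Agent.H839R2.Ode.exists_global_solution W _ _ hK hL (0, x)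
  have hα1 : ∀ t, (α t).1 = t := by
    have hd : ∀ t, HasDerivAt (fun t => (α t).1 - t) 0 t := by
      intro t
      have h3 : HasDerivAt (fun t => (α t).1) 1 t := (h1 t).fst
      have h4 := h3.sub (hasDerivAt_id t)
      rw [sub_self] at h4
      exact h4
    have hc := is_const_of_deriv_eq_zero (fun t => (hd t).differentiableAt)
      (fun t => (hd t).deriv)
    intro t
    have := hc t 0
    simp only [h0] at this
    linarith
  refine ⟨fun t => (α t).2, by simp [h0], fun t => ?_⟩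
  have := (h1 t).snd
  simp only [W, hα1 t] at this
  exact this

/-- difference of two solutions -/
lemma diff_formula {e a₁ b₁ a₂ b₂ : ℝ} {φ₁ φ₂ : ℝ → ℝ} (h₁ : IsSol e a₁ b₁ φ₁)
    (h₂ : IsSol e a₂ b₂ φ₂) : ∃ E : ℝ → ℝ, E 0 = 1 ∧ (∀ t, 0 < E t) ∧
      (∀ t, exp (-(|e| * |t|)) ≤ E t ∧ E t ≤ exp (|e| * |t|)) ∧
      ∀ t, HasDerivAt (fun t => (φ₂ t - φ₁ t) * E t)
        (((b₂ - b₁) + (a₂ - a₁) * cos t) * E t) t := by
  have hc1 : Continuous φ₁ := continuous_iff_continuousAt.2 fun t => (h₁ t).continuousAt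
  have hc2 : Continuous φ₂ := continuous_iff_continuousAt.2 fun t => (h₂ t).continuousAt
  let μ : ℝ → ℝ := fun s => cos ((φ₂ s + φ₁ s) / 2) * sinc ((φ₂ s - φ₁ s) / 2)
  have hsinc := continuous_sinc
  have hμ : Continuous μ := by
    simp only [μ]
    fun_prop
  have hμ1 : ∀ s, |μ s| ≤ 1 := by
    intro s
    simp only [μ]
    rw [abs_mul]
    have h1 := abs_cos_le_one ((φ₂ s + φ₁ s) / 2)
    have h2 := abs_sinc_le_one ((φ₂ s - φ₁ s) / 2)
    nlinarith [abs_nonneg (cos ((φ₂ s + φ₁ s) / 2)), abs_nonneg (sinc ((φ₂ s - φ₁ s) / 2))]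
  have hsin : ∀ s, sin (φ₂ s) - sin (φ₁ s) = μ s * (φ₂ s - φ₁ s) := by
    intro s
    simp only [μ]
    rw [sin_sub_sin]
    have : sin ((φ₂ s - φ₁ s) / 2) = (φ₂ s - φ₁ s) / 2 * sinc ((φ₂ s - φ₁ s) / 2) := by
      generalize (φ₂ s - φ₁ s) / 2 = y
      rcases eq_or_ne y 0 with h | h
      · rw [h]; simp
      · rw [sinc_of_ne_zero h]; field_simp
    rw [this]; ring
  have hI : ∀ t, HasDerivAt (fun t => ∫ s in (0:ℝ)..t, μ s) (μ t) t := fun t =>
    (hμ.integral_hasStrictDerivAt 0 t).hasDerivAt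
  have hIb : ∀ t, |∫ s in (0:ℝ)..t, μ s| ≤ |t| := by
    intro t
    have := intervalIntegral.norm_integral_le_of_norm_le_const (a := (0:ℝ)) (b := t) (f := μ)
      (C := 1) (fun s _ => hμ1 s)
    simpa using this
  refine ⟨fun t => exp (e * ∫ s in (0:ℝ)..t, μ s), by simp, fun t => exp_pos _, ?_, ?_⟩
  · intro t
    have h1 : |e * ∫ s in (0:ℝ)..t, μ s| ≤ |e| * |t| := by
      rw [abs_mul]
      exact mul_le_mul_of_nonneg_left (hIb t) (abs_nonneg _)
    exact ⟨exp_le_exp.2 (abs_le.1 h1).1, exp_le_exp.2 (abs_le.1 h1).2⟩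
  · intro t
    have h1 := ((h₂ t).sub (h₁ t)).mul (((hI t).const_mul e).exp)
    refine h1.congr_deriv ?_
    have h2 := hsin t
    simp only [Pi.sub_apply]
    have : b₂ + a₂ * cos t - e * sin (φ₂ t) - (b₁ + a₁ * cos t - e * sin (φ₁ t))
        = (b₂ - b₁) + (a₂ - a₁) * cos t - e * (sin (φ₂ t) - sin (φ₁ t)) := by ring
    rw [this, h2]
    ring

lemma const_diff {e a b : ℝ} {φ₁ φ₂ : ℝ → ℝ} (h₁ : IsSol e a b φ₁) (h₂ : IsSol e a b φ₂) (t : ℝ) :
    ∃ c : ℝ, 0 < c ∧ φ₂ t - φ₁ t = c * (φ₂ 0 - φ₁ 0) := by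
  obtain ⟨E, hE0, hE1, -, hE⟩ := diff_formula h₁ h₂
  have hd : ∀ t, HasDerivAt (fun t => (φ₂ t - φ₁ t) * E t) 0 t := by
    intro t
    refine (hE t).congr_deriv (by simp)
  have := is_const_of_deriv_eq_zero (fun t => (hd t).differentiableAt) (fun t => (hd t).deriv) t 0
  simp only [hE0, mul_one] at this
  refine ⟨1 / E t, by have := hE1 t; positivity, ?_⟩
  rw [← this]
  have := (hE1 t).ne'
  field_simp

lemma sol_unique {e a b : ℝ} {φ₁ φ₂ : ℝ → ℝ} (h₁ : IsSol e a b φ₁) (h₂ : IsSol e a b φ₂)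
    (h : φ₁ 0 = φ₂ 0) : φ₁ = φ₂ := by
  ext t
  obtain ⟨c, hc, h3⟩ := const_diff h₁ h₂ t
  rw [h, sub_self, mul_zero] at h3
  linarith

lemma sol_lt {e a b : ℝ} {φ₁ φ₂ : ℝ → ℝ} (h₁ : IsSol e a b φ₁) (h₂ : IsSol e a b φ₂)
    (h : φ₁ 0 < φ₂ 0) (t : ℝ) : φ₁ t < φ₂ t := by
  obtain ⟨c, hc, h3⟩ := const_diff h₁ h₂ t
  have : 0 < c * (φ₂ 0 - φ₁ 0) := mul_pos hc (by linarith)
  linarith

lemma sol_le {e a b : ℝ} {φ₁ φ₂ : ℝ → ℝ} (h₁ : IsSol e a b φ₁) (h₂ : IsSol e a b φ₂)
    (h : φ₁ 0 ≤ φ₂ 0) (t : ℝ) : φ₁ t ≤ φ₂ t := by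
  rcases h.eq_or_lt with h | h
  · rw [sol_unique h₁ h₂ h]
  · exact (sol_lt h₁ h₂ h t).le

lemma sol_lt_b {e a b₁ b₂ : ℝ} {φ₁ φ₂ : ℝ → ℝ} (h₁ : IsSol e a b₁ φ₁) (h₂ : IsSol e a b₂ φ₂)
    (h : φ₁ 0 = φ₂ 0) (hb : b₁ < b₂) {t : ℝ} (ht : 0 < t) : φ₁ t < φ₂ t := by
  obtain ⟨E, hE0, hE1, -, hE⟩ := diff_formula h₁ h₂
  have hmono : StrictMono (fun t => (φ₂ t - φ₁ t) * E t) := by
    apply strictMono_of_deriv_pos
    intro s
    rw [(hE s).deriv]
    have := hE1 s
    have h3 : 0 < b₂ - b₁ := by linarith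
    simp only [sub_self, zero_mul, add_zero]
    positivity
  have := hmono ht
  simp only [h, sub_self, zero_mul] at this
  have h4 := (mul_pos_iff_of_pos_right (hE1 t)).1 this
  linarith

lemma sol_dist {e a₁ b₁ a₂ b₂ : ℝ} {φ₁ φ₂ : ℝ → ℝ} (h₁ : IsSol e a₁ b₁ φ₁)
    (h₂ : IsSol e a₂ b₂ φ₂) {t : ℝ} (ht : 0 ≤ t) :
    |φ₂ t - φ₁ t| ≤ exp (|e| * t) * (|φ₂ 0 - φ₁ 0| + (|b₂ - b₁| + |a₂ - a₁|) * exp (|e| * t) * t) := by
  obtain ⟨E, hE0, hE1, hE2, hE⟩ := diff_formula h₁ h₂
  have hb : ∀ s ∈ Ico 0 t, ‖((b₂ - b₁) + (a₂ - a₁) * cos s) * E s‖ ≤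
      (|b₂ - b₁| + |a₂ - a₁|) * exp (|e| * t) := by
    intro s hs
    rw [Real.norm_eq_abs, abs_mul, abs_of_pos (hE1 s)]
    have i1 : |b₂ - b₁ + (a₂ - a₁) * cos s| ≤ |b₂ - b₁| + |a₂ - a₁| := by
      refine (abs_add_le _ _).trans ?_
      rw [abs_mul]
      have := abs_cos_le_one s
      nlinarith [abs_nonneg (a₂ - a₁)]
    have i2 : E s ≤ exp (|e| * t) := by
      refine (hE2 s).2.trans (exp_le_exp.2 ?_)
      rw [abs_of_nonneg hs.1]
      exact mul_le_mul_of_nonneg_left hs.2.le (abs_nonneg _)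
    exact mul_le_mul i1 i2 (hE1 s).le (by positivity)
  have h3 := norm_image_sub_le_of_norm_deriv_right_le_segment
    (f := fun t => (φ₂ t - φ₁ t) * E t) (a := 0) (b := t)
    (fun s _ => (hE s).continuousAt.continuousWithinAt)
    (fun s _ => (hE s).hasDerivWithinAt) hb t ⟨ht, le_rfl⟩
  simp only [hE0, mul_one, sub_zero, Real.norm_eq_abs] at h3
  have h4 : |(φ₂ t - φ₁ t) * E t| ≤ |φ₂ 0 - φ₁ 0| + (|b₂ - b₁| + |a₂ - a₁|) * exp (|e| * t) * t := by
    have := abs_sub_abs_le_abs_sub ((φ₂ t - φ₁ t) * E t) (φ₂ 0 - φ₁ 0)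
    linarith
  rw [abs_mul, abs_of_pos (hE1 t)] at h4
  have h5 : exp (-(|e| * t)) ≤ E t := by
    have := (hE2 t).1
    rwa [abs_of_nonneg ht] at this
  have h6 : |φ₂ t - φ₁ t| * exp (-(|e| * t)) ≤
      |φ₂ 0 - φ₁ 0| + (|b₂ - b₁| + |a₂ - a₁|) * exp (|e| * t) * t :=
    (mul_le_mul_of_nonneg_left h5 (abs_nonneg _)).trans h4
  calc |φ₂ t - φ₁ t| = exp (|e| * t) * (|φ₂ t - φ₁ t| * exp (-(|e| * t))) := by
        rw [mul_left_comm, ← exp_add]; simp
    _ ≤ _ := mul_le_mul_of_nonneg_left h6 (exp_pos _).le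

/-- The solution with initial value `x`. -/
noncomputable def sol (e a b x : ℝ) : ℝ → ℝ := Classical.choose (exists_sol e a b x)

lemma sol_zero (e a b x : ℝ) : sol e a b x 0 = x := (Classical.choose_spec (exists_sol e a b x)).1

lemma isSol_sol (e a b x : ℝ) : IsSol e a b (sol e a b x) :=
  (Classical.choose_spec (exists_sol e a b x)).2

lemma IsSol.continuous {e a b : ℝ} {φ : ℝ → ℝ} (h : IsSol e a b φ) : Continuous φ :=
  continuous_iff_continuousAt.2 fun t => (h t).continuousAt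

lemma eq_sol {e a b : ℝ} {φ : ℝ → ℝ} (h : IsSol e a b φ) : φ = sol e a b (φ 0) :=
  sol_unique h (isSol_sol _ _ _ _) (sol_zero _ _ _ _).symm

/-- The period map. -/
noncomputable def PP (e a b x : ℝ) : ℝ := sol e a b x (2 * π)

lemma PP_strictMono (e a b : ℝ) : StrictMono (PP e a b) := fun x y hxy =>
  sol_lt (isSol_sol _ _ _ _) (isSol_sol _ _ _ _) (by rw [sol_zero, sol_zero]; exact hxy) _

lemma PP_lt_b (e a x : ℝ) {b₁ b₂ : ℝ} (h : b₁ < b₂) : PP e a b₁ x < PP e a b₂ x :=
  sol_lt_b (isSol_sol _ _ _ _) (isSol_sol _ _ _ _) (by rw [sol_zero, sol_zero]) h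
    (by positivity)

lemma PP_continuous (e : ℝ) : Continuous (fun p : ℝ × ℝ × ℝ => PP e p.1 p.2.1 p.2.2) := by
  rw [continuous_iff_continuousAt]
  intro p
  rw [ContinuousAt, tendsto_iff_dist_tendsto_zero]
  have hb : ∀ q : ℝ × ℝ × ℝ, dist (PP e q.1 q.2.1 q.2.2) (PP e p.1 p.2.1 p.2.2) ≤
      exp (|e| * (2 * π)) * (|q.2.2 - p.2.2| +
        (|q.2.1 - p.2.1| + |q.1 - p.1|) * exp (|e| * (2 * π)) * (2 * π)) := by
    intro q
    have := sol_dist (isSol_sol e p.1 p.2.1 p.2.2) (isSol_sol e q.1 q.2.1 q.2.2)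
      (t := 2 * π) (by positivity)
    rw [sol_zero, sol_zero] at this
    rw [Real.dist_eq]
    exact this
  refine squeeze_zero (fun q => dist_nonneg) hb ?_
  have hc : Continuous (fun q : ℝ × ℝ × ℝ => exp (|e| * (2 * π)) * (|q.2.2 - p.2.2| +
        (|q.2.1 - p.2.1| + |q.1 - p.1|) * exp (|e| * (2 * π)) * (2 * π))) := by fun_prop
  have := hc.tendsto p
  simpa using this

lemma PP_cont_x (e a b : ℝ) : Continuous (PP e a b) :=
  (PP_continuous e).comp (by fun_prop : Continuous fun x : ℝ => ((a, b, x) : ℝ × ℝ × ℝ))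

lemma isSol_add_int {e a b : ℝ} {φ : ℝ → ℝ} (h : IsSol e a b φ) (k : ℤ) :
    IsSol e a b (fun t => φ t + 2 * π * k) := by
  intro t
  have h1 := (h t).add_const (2 * π * k)
  refine h1.congr_deriv ?_
  have : sin (φ t + 2 * π * k) = sin (φ t) := by
    rw [mul_comm (2 * π) (k:ℝ)]; exact sin_add_int_mul_two_pi _ _
  rw [this]

lemma sol_add_int (e a b x : ℝ) (k : ℤ) (t : ℝ) :
    sol e a b (x + 2 * π * k) t = sol e a b x t + 2 * π * k := by
  have := eq_sol (isSol_add_int (isSol_sol e a b x) k)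
  simp only [sol_zero] at this
  exact (congrFun this t).symm

lemma isSol_shift {e a b : ℝ} {φ : ℝ → ℝ} (h : IsSol e a b φ) :
    IsSol e a b (fun t => φ (t + 2 * π)) := by
  intro t
  have h1 := (h (t + 2 * π)).comp_add_const t (2 * π)
  refine h1.congr_deriv ?_
  rw [cos_add_two_pi]

lemma sol_shift (e a b x t : ℝ) : sol e a b x (t + 2 * π) = sol e a b (PP e a b x) t := by
  have := eq_sol (isSol_shift (isSol_sol e a b x))
  simp only [zero_add] at this
  exact congrFun this t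

lemma PP_add_int (e a b x : ℝ) (k : ℤ) : PP e a b (x + 2 * π * k) = PP e a b x + 2 * π * k :=
  sol_add_int e a b x k _

/-- Integrated equation. -/
lemma sol_integral {e a b : ℝ} {φ : ℝ → ℝ} (h : IsSol e a b φ) (t : ℝ) :
    φ t = φ 0 + b * t + a * sin t - e * ∫ s in (0:ℝ)..t, sin (φ s) := by
  have hc := h.continuous
  have h1 : ∫ s in (0:ℝ)..t, (b + a * cos s - e * sin (φ s)) = φ t - φ 0 :=
    intervalIntegral.integral_eq_sub_of_hasDerivAt (fun s _ => h s)
      (Continuous.intervalIntegrable (by fun_prop) _ _)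
  have h2 : ∫ s in (0:ℝ)..t, (b + a * cos s - e * sin (φ s))
      = b * t + a * sin t - e * ∫ s in (0:ℝ)..t, sin (φ s) := by
    rw [intervalIntegral.integral_sub, intervalIntegral.integral_add,
      intervalIntegral.integral_const_mul, intervalIntegral.integral_const_mul, integral_cos]
    · simp
      ring
    all_goals exact Continuous.intervalIntegrable (by fun_prop) _ _
  linarith

/-- The rotation number is `r`. -/
def Rot (e a b r : ℝ) : Prop :=
  ∀ φ : ℝ → ℝ, IsSol e a b φ → Tendsto (fun t => φ t / t) atTop (𝓝 r)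

lemma rot_of_fix {e a b x : ℝ} {r : ℤ} (h : PP e a b x = x + 2 * π * r) : Rot e a b r := by
  have hper : ∀ t, sol e a b x (t + 2 * π) = sol e a b x t + 2 * π * r := by
    intro t; rw [sol_shift, h, sol_add_int]
  have hsc := (isSol_sol e a b x).continuous
  -- the difference is periodic
  have hp : Function.Periodic (fun t => sol e a b x t - r * t) (2 * π) := by
    intro t
    simp only
    rw [hper]; ring
  have hpc : Continuous (fun t => sol e a b x t - r * t) := by fun_prop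
  obtain ⟨C, hC⟩ : ∃ C, ∀ t, |sol e a b x t - r * t| ≤ C := by
    obtain ⟨C, hC⟩ := (isCompact_Icc (a := (0:ℝ)) (b := 2 * π)).exists_bound_of_continuousOn
      hpc.continuousOn
    refine ⟨C, fun t => ?_⟩
    obtain ⟨s, hs, hst⟩ := hp.exists_mem_Ico₀ (by positivity) t
    have := hC s (Ico_subset_Icc_self hs)
    rw [Real.norm_eq_abs] at this
    have h2 : sol e a b x t - r * t = sol e a b x s - r * s := hst
    rw [h2]
    exact this
  intro φ hφ
  -- sandwich
  set k : ℤ := ⌊(φ 0 - x) / (2 * π)⌋ with hk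
  have hk1 : x + 2 * π * k ≤ φ 0 := by
    have := Int.floor_le ((φ 0 - x) / (2 * π))
    rw [le_div_iff₀ (by positivity)] at this
    rw [← hk] at this; linarith
  have hk2 : φ 0 ≤ x + 2 * π * (k + 1 : ℤ) := by
    have := Int.lt_floor_add_one ((φ 0 - x) / (2 * π))
    rw [div_lt_iff₀ (by positivity)] at this
    rw [← hk] at this; push_cast; linarith
  have hlow : ∀ t, sol e a b x t + 2 * π * k ≤ φ t := by
    intro t
    rw [← sol_add_int]
    exact sol_le (isSol_sol _ _ _ _) hφ (by rw [sol_zero]; exact hk1) t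
  have hupp : ∀ t, φ t ≤ sol e a b x t + 2 * π * (k + 1 : ℤ) := by
    intro t
    rw [← sol_add_int]
    exact sol_le hφ (isSol_sol _ _ _ _) (by rw [sol_zero]; exact hk2) t
  set D : ℝ := C + 2 * π * |(k:ℝ)| + 2 * π with hD
  have hbd : ∀ t, |φ t - r * t| ≤ D := by
    intro t
    have h1 := abs_le.1 (hC t)
    have h2 := hlow t
    have h3 := hupp t
    push_cast at h3
    have h4 := neg_abs_le (k:ℝ)
    have h5 := le_abs_self (k:ℝ)
    have hpi := pi_pos
    rw [abs_le]
    constructor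
    · rw [hD]; nlinarith
    · rw [hD]; nlinarith
  have hlim : Tendsto (fun t : ℝ => D / t) atTop (𝓝 0) := tendsto_const_nhds.div_atTop tendsto_id
  rw [tendsto_iff_dist_tendsto_zero]
  refine squeeze_zero' (Eventually.of_forall fun t => dist_nonneg) ?_ hlim
  filter_upwards [eventually_gt_atTop 0] with t ht
  rw [Real.dist_eq]
  have : φ t / t - r = (φ t - r * t) / t := by field_simp
  rw [this, abs_div, abs_of_pos ht]
  exact div_le_div_of_nonneg_right (hbd t) ht.le

lemma growth {e a b : ℝ} {r : ℤ} {δ : ℝ} (h : ∀ x, x + 2 * π * r + δ ≤ PP e a b x) (x : ℝ) (n : ℕ) :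
    x + n * (2 * π * r + δ) ≤ sol e a b x (2 * π * n) := by
  induction n generalizing x with
  | zero => simp [sol_zero]
  | succ n ih =>
    have e1 : 2 * π * ((n + 1 : ℕ) : ℝ) = 2 * π * n + 2 * π := by push_cast; ring
    rw [e1, sol_shift]
    have := ih (PP e a b x)
    have h2 := h x
    push_cast
    linarith

lemma growth' {e a b : ℝ} {r : ℤ} {δ : ℝ} (h : ∀ x, PP e a b x ≤ x + 2 * π * r - δ) (x : ℝ) (n : ℕ) :
    sol e a b x (2 * π * n) ≤ x + n * (2 * π * r - δ) := by
  induction n generalizing x with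
  | zero => simp [sol_zero]
  | succ n ih =>
    have e1 : 2 * π * ((n + 1 : ℕ) : ℝ) = 2 * π * n + 2 * π := by push_cast; ring
    rw [e1, sol_shift]
    have := ih (PP e a b x)
    have h2 := h x
    push_cast
    linarith

lemma fix_of_rot {e a b : ℝ} {r : ℤ} (h : Rot e a b r) : ∃ x, PP e a b x = x + 2 * π * r := by
  by_contra hcon
  push Not at hcon
  let g : ℝ → ℝ := fun x => PP e a b x - x - 2 * π * r
  have hPc := PP_cont_x e a b
  have hg : Continuous g := by simp only [g]; fun_prop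
  have hg0 : ∀ x, g x ≠ 0 := by
    intro x hx
    exact hcon x (by simp only [g] at hx; linarith)
  have hgp : ∀ x (k : ℤ), g (x + 2 * π * k) = g x := by
    intro x k
    simp only [g]
    rw [PP_add_int]; ring
  have hred : ∀ x, ∃ y ∈ Icc 0 (2 * π), g x = g y := by
    intro x
    refine ⟨x + 2 * π * ((-⌊x / (2 * π)⌋ : ℤ)), ⟨?_, ?_⟩, (hgp x _).symm⟩
    · have := Int.floor_le (x / (2 * π))
      rw [le_div_iff₀ (by positivity)] at this
      push_cast; linarith
    · have := Int.lt_floor_add_one (x / (2 * π))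
      rw [div_lt_iff₀ (by positivity)] at this
      push_cast; linarith
  have hlimn : Tendsto (fun n : ℕ => 2 * π * (n:ℝ)) atTop atTop :=
    (tendsto_natCast_atTop_atTop).const_mul_atTop (by positivity)
  have hlim := (h _ (isSol_sol e a b 0)).comp hlimn
  rcases lt_or_gt_of_ne (hg0 0) with h0 | h0
  · -- negative everywhere
    have hneg : ∀ x, g x < 0 := by
      intro x
      by_contra hc
      push Not at hc
      have := mem_range_of_exists_le_of_exists_ge hg ⟨0, h0.le⟩ ⟨x, hc⟩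
      obtain ⟨y, hy⟩ := this
      exact hg0 y hy
    obtain ⟨y0, hy0, hmax⟩ := (isCompact_Icc (a := (0:ℝ)) (b := 2 * π)).exists_isMaxOn
      ⟨0, ⟨le_rfl, by positivity⟩⟩ hg.continuousOn
    have hδ : 0 < -g y0 := by have := hneg y0; linarith
    have hb : ∀ x, PP e a b x ≤ x + 2 * π * r - (-g y0) := by
      intro x
      obtain ⟨y, hy, hxy⟩ := hred x
      have h1 : g y ≤ g y0 := hmax hy
      rw [← hxy] at h1
      simp only [g] at h1 ⊢
      linarith
    have hgr := growth' hb 0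
    have h3 : (r:ℝ) ≤ r - (-g y0) / (2 * π) := by
      refine le_of_tendsto hlim ?_
      filter_upwards [eventually_gt_atTop 0] with n hn
      have hn' : (0:ℝ) < n := by exact_mod_cast hn
      simp only [Function.comp]
      rw [div_le_iff₀ (by positivity)]
      have := hgr n
      have e1 : (r - (-g y0) / (2 * π)) * (2 * π * n) = 0 + n * (2 * π * r - (-g y0)) := by
        field_simp; ring
      rw [e1]; exact this
    have : 0 < (-g y0) / (2 * π) := by positivity
    linarith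
  · have hpos : ∀ x, 0 < g x := by
      intro x
      by_contra hc
      push Not at hc
      have := mem_range_of_exists_le_of_exists_ge hg ⟨x, hc⟩ ⟨0, h0.le⟩
      obtain ⟨y, hy⟩ := this
      exact hg0 y hy
    obtain ⟨y0, hy0, hmin⟩ := (isCompact_Icc (a := (0:ℝ)) (b := 2 * π)).exists_isMinOn
      ⟨0, ⟨le_rfl, by positivity⟩⟩ hg.continuousOn
    have hδ : 0 < g y0 := hpos y0
    have hb : ∀ x, x + 2 * π * r + g y0 ≤ PP e a b x := by
      intro x
      obtain ⟨y, hy, hxy⟩ := hred x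
      have h1 : g y0 ≤ g y := hmin hy
      rw [← hxy] at h1
      simp only [g] at h1 ⊢
      linarith
    have hgr := growth hb 0
    have h3 : r + g y0 / (2 * π) ≤ (r:ℝ) := by
      refine ge_of_tendsto hlim ?_
      filter_upwards [eventually_gt_atTop 0] with n hn
      have hn' : (0:ℝ) < n := by exact_mod_cast hn
      simp only [Function.comp]
      rw [le_div_iff₀ (by positivity)]
      have := hgr n
      have e1 : (r + g y0 / (2 * π)) * (2 * π * n) = 0 + n * (2 * π * r + g y0) := by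
        field_simp; ring
      rw [e1]; exact this
    have : 0 < g y0 / (2 * π) := by positivity
    linarith

/-- The slice of the phase-lock area is a single point iff the period map is trivial. -/
lemma adj_iff {e a b : ℝ} {r : ℤ} :
    {b' | Rot e a b' r} = {b} ↔ ∀ x, PP e a b x = x + 2 * π * r := by
  constructor
  · intro h
    have hb : Rot e a b r := by
      have : b ∈ ({b} : Set ℝ) := rfl
      rw [← h] at this
      exact this
    obtain ⟨x0, hx0⟩ := fix_of_rot hb
    intro x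
    have hcb : Continuous (fun b' => PP e a b' x) :=
      (PP_continuous e).comp (by fun_prop : Continuous fun b' : ℝ => ((a, b', x) : ℝ × ℝ × ℝ))
    rcases lt_trichotomy (PP e a b x) (x + 2 * π * r) with h1 | h1 | h1
    · exfalso
      have hev : ∀ᶠ b' in 𝓝[>] b, PP e a b' x < x + 2 * π * r :=
        (hcb.continuousAt.mono_left nhdsWithin_le_nhds).eventually_lt_const h1
      obtain ⟨b', hb'1, hb'2⟩ := (hev.and self_mem_nhdsWithin).exists
      have hb'2' : b < b' := hb'2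
      have h2 := PP_lt_b e a x0 hb'2'
      rw [hx0] at h2
      have hg : Continuous (fun x => PP e a b' x - x) := by
        have := PP_cont_x e a b'; fun_prop
      obtain ⟨y, hy⟩ := mem_range_of_exists_le_of_exists_ge hg (c := 2 * π * r)
        ⟨x, by linarith⟩ ⟨x0, by linarith⟩
      simp only at hy
      have hmem : b' ∈ {b' | Rot e a b' r} := rot_of_fix (x := y) (by linarith)
      rw [h] at hmem
      exact absurd hmem hb'2'.ne'
    · exact h1
    · exfalso
      have hev : ∀ᶠ b' in 𝓝[<] b, x + 2 * π * r < PP e a b' x :=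
        (hcb.continuousAt.mono_left nhdsWithin_le_nhds).eventually_const_lt h1
      obtain ⟨b', hb'1, hb'2⟩ := (hev.and self_mem_nhdsWithin).exists
      have hb'2' : b' < b := hb'2
      have h2 := PP_lt_b e a x0 hb'2'
      rw [hx0] at h2
      have hg : Continuous (fun x => PP e a b' x - x) := by
        have := PP_cont_x e a b'; fun_prop
      obtain ⟨y, hy⟩ := mem_range_of_exists_le_of_exists_ge hg (c := 2 * π * r)
        ⟨x0, by linarith⟩ ⟨x, by linarith⟩
      simp only at hy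
      have hmem : b' ∈ {b' | Rot e a b' r} := rot_of_fix (x := y) (by linarith)
      rw [h] at hmem
      exact absurd hmem hb'2'.ne
  · intro h
    ext b'
    constructor
    · intro hb'
      obtain ⟨x, hx⟩ := fix_of_rot hb'
      rcases lt_trichotomy b' b with h1 | h1 | h1
      · have := PP_lt_b e a x h1
        rw [hx, h x] at this
        exact absurd this (lt_irrefl _)
      · exact h1
      · have := PP_lt_b e a x h1
        rw [hx, h x] at this
        exact absurd this (lt_irrefl _)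
    · intro hb'
      rw [mem_singleton_iff] at hb'
      rw [hb']
      exact rot_of_fix (h 0)

end Pool.Agent.V1185.Jos
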